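import Pool.Agent.W_a18a27_h10.Core

set_option autoImplicit false

/-!
From the counting function to the upper limit of `a n / n ^ 3`.
-/

namespace Pool.Agent.W_a18a27_h10

theorem isSidon_of_B3 {a : ℕ → ℤ}
    (hB : ∀ i j l i' j' l' : ℕ, i ≤ j → j ≤ l → i' ≤ j' → j' ≤ l' →
        a i + a j + a l = a i' + a j' + a l' → i = i' ∧ j = j' ∧ l = l') :
    IsSidon (Set.range a) := by
  rintro _ ⟨i, rfl⟩ _ ⟨j, rfl⟩ _ ⟨i', rfl⟩ _ ⟨j', rfl⟩ h
  set l := max (max i j) (max i' j') with hl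
  have e : ∀ p q p' q' : ℕ, p ≤ q → p' ≤ q' → q ≤ l → q' ≤ l → a p + a q = a p' + a q' →
      p = p' ∧ q = q' := by
    intro p q p' q' h1 h2 h3 h4 h5
    have := hB p q l p' q' l h1 h3 h2 h4 (by rw [h5])
    exact ⟨this.1, this.2.1⟩
  rcases le_total i j with h1 | h1 <;> rcases le_total i' j' with h2 | h2
  · exact Or.inl (by rw [(e i j i' j' h1 h2 (by omega) (by omega) h).1])
  · exact Or.inr (by rw [(e i j j' i' h1 h2 (by omega) (by omega) (by rw [h, add_comm])).1])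
  · exact Or.inr (by rw [(e j i i' j' h1 h2 (by omega) (by omega) (by rw [← h, add_comm])).2])
  · exact Or.inl (by rw [(e j i j' i' h1 h2 (by omega) (by omega)
      (by rw [add_comm (a j), h, add_comm])).2])

theorem limsup_of_small {a : ℕ → ℤ} (ha : StrictMono a)
    (h : ∀ M : ℕ, ∃ k m B : ℕ, 1 ≤ B ∧
      {x : Fin m → Fin k | val x ∈ Set.range a}.ncard ≤ B ∧ M * B ^ 3 ≤ k ^ m) :
    ∀ C : ℝ, ∀ N : ℕ, ∃ n : ℕ, N ≤ n ∧ C * ((n : ℝ) + 1) ^ 3 < (a n : ℝ) := by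
  classical
  intro C N
  have hlin : ∀ n : ℕ, a 0 + n ≤ a n := by
    intro n
    induction n with
    | zero => simp
    | succ n ih =>
      have := ha (Nat.lt_succ_self n)
      push_cast
      have e : n.succ = n + 1 := rfl
      rw [e] at this
      omega
  set n₀ := (a 0).natAbs with hn₀
  have hpos : ∀ n, n₀ ≤ n → 0 ≤ a n := by
    intro n hn
    have := hlin n
    omega
  obtain ⟨k, m, B, hB, hcard, hM⟩ := h (⌈|C|⌉₊ * (n₀ + N + 2) ^ 3 + 1)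
  set n := n₀ + N + B with hn
  have hbig : (k : ℤ) ^ m ≤ a n := by
    by_contra hlt
    push Not at hlt
    have hex : ∀ i : Fin (B + 1), ∃ x : Fin m → Fin k, val x = a (n₀ + N + i) := by
      intro i
      refine exists_val (hpos _ (by omega)) (lt_of_le_of_lt ?_ hlt)
      exact ha.monotone (by omega)
    choose g hg using hex
    have hginj : Function.Injective g := by
      intro i j hij
      have : a (n₀ + N + i) = a (n₀ + N + j) := by rw [← hg, ← hg, hij]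
      have := ha.injective this
      exact Fin.ext (by omega)
    have h1 : (Set.range g).ncard = B + 1 := by
      rw [← Set.image_univ, Set.ncard_image_of_injective _ hginj, Set.ncard_univ]
      simp
    have h2 : (Set.range g).ncard ≤ {x : Fin m → Fin k | val x ∈ Set.range a}.ncard := by
      refine Set.ncard_le_ncard ?_ (Set.toFinite _)
      rintro _ ⟨i, rfl⟩
      exact ⟨_, (hg i).symm⟩
    omega
  refine ⟨n, by omega, ?_⟩
  have h1 : ((⌈|C|⌉₊ * (n₀ + N + 2) ^ 3 + 1 : ℕ) : ℝ) * (B : ℝ) ^ 3 ≤ (k : ℝ) ^ m := by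
    exact_mod_cast hM
  have h2 : (k : ℝ) ^ m ≤ (a n : ℝ) := by exact_mod_cast hbig
  have hBr : (1 : ℝ) ≤ B := by exact_mod_cast hB
  have h3 : ((n : ℝ) + 1) ≤ ((n₀ : ℝ) + N + 2) * B := by
    rw [hn]
    push_cast
    have h4 : (0 : ℝ) ≤ n₀ := Nat.cast_nonneg _
    have h5 : (0 : ℝ) ≤ N := Nat.cast_nonneg _
    nlinarith [mul_le_mul_of_nonneg_left hBr (show (0 : ℝ) ≤ (n₀ : ℝ) + N + 1 by linarith)]
  have h4 : ((n : ℝ) + 1) ^ 3 ≤ (((n₀ : ℝ) + N + 2) * B) ^ 3 :=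
    pow_le_pow_left₀ (by positivity) h3 3
  have h5 : C ≤ (⌈|C|⌉₊ : ℝ) := (le_abs_self C).trans (Nat.le_ceil _)
  have h6 : (0 : ℝ) ≤ (⌈|C|⌉₊ : ℝ) := Nat.cast_nonneg _
  calc C * ((n : ℝ) + 1) ^ 3 ≤ (⌈|C|⌉₊ : ℝ) * ((n : ℝ) + 1) ^ 3 :=
        mul_le_mul_of_nonneg_right h5 (by positivity)
    _ ≤ (⌈|C|⌉₊ : ℝ) * (((n₀ : ℝ) + N + 2) * B) ^ 3 := mul_le_mul_of_nonneg_left h4 h6
    _ = ((⌈|C|⌉₊ : ℝ) * ((n₀ : ℝ) + N + 2) ^ 3) * (B : ℝ) ^ 3 := by ring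
    _ < ((⌈|C|⌉₊ : ℝ) * ((n₀ : ℝ) + N + 2) ^ 3 + 1) * (B : ℝ) ^ 3 := by
        have : (0 : ℝ) < (B : ℝ) ^ 3 := by positivity
        nlinarith
    _ ≤ (k : ℝ) ^ m := by
        refine le_trans (le_of_eq ?_) h1
        push_cast
        ring
    _ ≤ (a n : ℝ) := h2

/-- The set `A'` contains all but few of the members of `A` in `[0, k ^ m)`: the number of missing
members is at most `(k ^ m / N) ^ (1 / 3)`. -/
def AlmostAll (A A' : Set ℤ) (k m N : ℕ) : Prop :=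
  A' ⊆ A ∧ N * ((A \ A') ∩ Set.Ico 0 ((k : ℤ) ^ m)).ncard ^ 3 ≤ k ^ m

theorem limsup_of_approx {a : ℕ → ℤ} (ha : StrictMono a)
    (h : ∀ N : ℕ, ∃ (k m B : ℕ) (A' : Set ℤ), 1 ≤ B ∧ AlmostAll (Set.range a) A' k m N ∧
      {x : Fin m → Fin k | val x ∈ A'}.ncard ≤ B ∧ N * B ^ 3 ≤ k ^ m) :
    ∀ C : ℝ, ∀ N : ℕ, ∃ n : ℕ, N ≤ n ∧ C * ((n : ℝ) + 1) ^ 3 < (a n : ℝ) := by
  refine limsup_of_small ha fun M => ?_
  obtain ⟨k, m, B, A', hB, ⟨-, hE⟩, hc, hN⟩ := h (8 * M)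
  set E := ((Set.range a \ A') ∩ Set.Ico 0 ((k : ℤ) ^ m)).ncard with hEdef
  refine ⟨k, m, B + E, by omega, ?_, ?_⟩
  · have h1 : {x : Fin m → Fin k | val x ∈ Set.range a} ⊆
        {x : Fin m → Fin k | val x ∈ A'} ∪ {x : Fin m → Fin k | val x ∈ Set.range a \ A'} := by
      intro x hx
      by_cases h2 : val x ∈ A'
      · exact Or.inl h2
      · exact Or.inr ⟨hx, h2⟩
    calc {x : Fin m → Fin k | val x ∈ Set.range a}.ncard
        ≤ ({x : Fin m → Fin k | val x ∈ A'} ∪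
            {x : Fin m → Fin k | val x ∈ Set.range a \ A'}).ncard :=
          Set.ncard_le_ncard h1 (Set.toFinite _)
      _ ≤ {x : Fin m → Fin k | val x ∈ A'}.ncard +
          {x : Fin m → Fin k | val x ∈ Set.range a \ A'}.ncard := Set.ncard_union_le _ _
      _ ≤ B + E := by
          rw [hEdef, ncard_Ico]
          exact Nat.add_le_add_right hc _
  · rcases le_total B E with h1 | h1
    · calc M * (B + E) ^ 3 ≤ M * (2 * E) ^ 3 := by
            refine Nat.mul_le_mul_left _ (Nat.pow_le_pow_left (by omega) 3)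
        _ = 8 * M * E ^ 3 := by ring
        _ ≤ k ^ m := hE
    · calc M * (B + E) ^ 3 ≤ M * (2 * B) ^ 3 := by
            refine Nat.mul_le_mul_left _ (Nat.pow_le_pow_left (by omega) 3)
        _ = 8 * M * B ^ 3 := by ring
        _ ≤ k ^ m := hN

/-- The general criterion. -/
theorem criterion {a : ℕ → ℤ} (ha : StrictMono a)
    (hB : ∀ i j l i' j' l' : ℕ, i ≤ j → j ≤ l → i' ≤ j' → j' ≤ l' →
        a i + a j + a l = a i' + a j' + a l' → i = i' ∧ j = j' ∧ l = l')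
    (h : ∀ N : ℕ, ∃ (k m d r b : ℕ) (K : ℕ → Set (Finset (Fin m))) (A' : Set ℤ), 1 ≤ k ∧ 1 ≤ r ∧
      K 0 = {∅} ∧ K (d + 1) = {Finset.univ} ∧
      (∀ i ≤ d, ∀ P ∈ K i, ∀ P' ∈ K (i + 1), (P' \ P).card ≤ b) ∧
      AlmostAll (Set.range a) A' k m N ∧
      (∀ i, 1 ≤ i → i ≤ d → RectCover (K i) r {x : Fin m → Fin k | val x ∈ A'}) ∧
      N * ((d + 1) * r ^ d * k ^ b) ^ 3 ≤ k ^ m) :
    ∀ C : ℝ, ∀ N : ℕ, ∃ n : ℕ, N ≤ n ∧ C * ((n : ℝ) + 1) ^ 3 < (a n : ℝ) := by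
  refine limsup_of_approx ha fun N => ?_
  obtain ⟨k, m, d, r, b, K, A', hk, hr, h0, h1, hb, hA', hc, hN⟩ := h N
  refine ⟨k, m, (d + 1) * r ^ d * k ^ b, A', ?_, hA', ?_, hN⟩
  · exact Nat.mul_pos (Nat.mul_pos (by omega) (Nat.pow_pos hr)) (Nat.pow_pos hk)
  · exact card_le ((isSidon_of_B3 hB).mono hA'.1) hk K h0 h1 hb hc

end Pool.Agent.W_a18a27_h10
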