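import Pool.Agent.W_a18a27_h10.Few92
import Pool.Agent.W_a18a27_h10.Seq

/-!
# One cut in the middle of the digits

A `B₃` set whose digit strings are a union of `r` rectangles with respect to the lower and the upper
half of the digits has at most about `r k ^ (m / 6)` members in `[0, k ^ m)`.
-/

set_option autoImplicit false

namespace Pool.Agent.W_a18a27_LC

open Finset hiding val
open Pool.Agent.W_a18a27_h10

/-- The number of members of a `B₃` set in an interval. -/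
theorem choose_le {U : Finset ℤ} (hU : IsB3Z (U : Set ℤ)) {X : ℕ}
    (h : ∀ a ∈ U, 0 ≤ a ∧ a < X) : U.card.choose 3 ≤ 3 * X := by
  classical
  rw [← card_powersetCard, ← card_range (3 * X)]
  have key : ∀ s ∈ U.powersetCard 3, ∃ a ∈ U, ∃ b ∈ U, ∃ c ∈ U, a ≠ b ∧ a ≠ c ∧ b ≠ c ∧
      s = {a, b, c} ∧ ∑ x ∈ s, x = a + b + c := by
    intro s hs
    obtain ⟨hsU, hs3⟩ := mem_powersetCard.1 hs
    obtain ⟨a, b, c, hab, hac, hbc, rfl⟩ := card_eq_three.1 hs3
    refine ⟨a, hsU (by simp), b, hsU (by simp), c, hsU (by simp), hab, hac, hbc, rfl, ?_⟩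
    rw [sum_insert (by simp [hab, hac]), sum_insert (by simp [hbc]), sum_singleton]
    ring
  refine card_le_card_of_injOn (fun s => (∑ x ∈ s, x).toNat) ?_ ?_
  · intro s hs
    obtain ⟨a, ha, b, hb, c, hc, -, -, -, -, hsum⟩ := key s (mem_coe.1 hs)
    have h1 := h a ha
    have h2 := h b hb
    have h3 := h c hc
    rw [mem_coe, mem_range]
    show (∑ x ∈ s, x).toNat < 3 * X
    rw [hsum]
    omega
  · intro s hs s' hs' heq
    obtain ⟨a, ha, b, hb, c, hc, hab, hac, hbc, es, hsum⟩ := key s (mem_coe.1 hs)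
    obtain ⟨a', ha', b', hb', c', hc', -, -, -, es', hsum'⟩ := key s' (mem_coe.1 hs')
    have h1 := h a ha
    have h2 := h b hb
    have h3 := h c hc
    have h1' := h a' ha'
    have h2' := h b' hb'
    have h3' := h c' hc'
    have heq' : (∑ x ∈ s, x).toNat = (∑ x ∈ s', x).toNat := heq
    rw [hsum, hsum'] at heq'
    have e : a + b + c = a' + b' + c' := by omega
    have ea := hU a ha b hb c hc a' ha' b' hb' c' hc' e
    have eb := hU b hb a ha c hc a' ha' b' hb' c' hc' (by linarith)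
    have ec := hU c hc a ha b hb a' ha' b' hb' c' hc' (by linarith)
    have hsub : s ⊆ s' := by
      rw [es, es']
      intro x hx
      simp only [mem_insert, mem_singleton] at hx ⊢
      rcases hx with rfl | rfl | rfl
      · exact ea
      · exact eb
      · exact ec
    refine eq_of_subset_of_card_le hsub ?_
    rw [(mem_powersetCard.1 (mem_coe.1 hs)).2, (mem_powersetCard.1 (mem_coe.1 hs')).2]

theorem card_b3_le {U : Finset ℤ} (hU : IsB3Z (U : Set ℤ)) {X y : ℕ}
    (h : ∀ a ∈ U, 0 ≤ a ∧ a < X) (hy : 18 * X < (y + 1) ^ 3) : U.card ≤ y + 2 := by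
  by_contra hcon
  push Not at hcon
  have h1 : (y + 3).choose 3 ≤ U.card.choose 3 := Nat.choose_le_choose 3 (by omega)
  have h2 := choose_le hU h
  have h3 : ((y + 3 + 1 - 3 : ℕ) : ℚ) ^ 3 ≤ (Nat.factorial 3 : ℚ) * ((y + 3).choose 3 : ℚ) := by
    have := @Nat.pow_le_choose ℚ _ _ _ 3 (y + 3)
    rw [div_le_iff₀ (by positivity)] at this
    rw [mul_comm]
    exact this
  have h4 : (y + 3 + 1 - 3 : ℕ) = y + 1 := by omega
  rw [h4] at h3
  have h5 : (y + 1) ^ 3 ≤ 6 * (y + 3).choose 3 := by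
    have : Nat.factorial 3 = 6 := rfl
    rw [this] at h3
    exact_mod_cast h3
  omega

/-- The same for a progression. -/
theorem card_prog_le {U : Finset ℤ} (hU : IsB3Z (U : Set ℤ)) {X y : ℕ} {c g : ℤ} (hg : 0 < g)
    (h : ∀ a ∈ U, ∃ u : ℤ, 0 ≤ u ∧ u < X ∧ a = c + g * u) (hy : 18 * X < (y + 1) ^ 3) :
    U.card ≤ y + 2 := by
  classical
  have hdiv : ∀ u : ℤ, (c + g * u - c) / g = u := by
    intro u
    rw [add_sub_cancel_left, Int.mul_ediv_cancel_left _ hg.ne']
  have h1 : (U.image fun a => (a - c) / g).card = U.card := by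
    refine card_image_of_injOn ?_
    intro a ha b hb hab
    obtain ⟨u, -, -, rfl⟩ := h a (mem_coe.1 ha)
    obtain ⟨v, -, -, rfl⟩ := h b (mem_coe.1 hb)
    simp only [hdiv] at hab
    rw [hab]
  rw [← h1]
  refine card_b3_le (X := X) ?_ ?_ hy
  · have hm : ∀ x ∈ (U.image fun a => (a - c) / g : Finset ℤ), c + g * x ∈ U := by
      intro x hx
      obtain ⟨a, ha, rfl⟩ := mem_image.1 hx
      obtain ⟨u, -, -, rfl⟩ := h a ha
      rw [hdiv]
      exact ha
    intro x1 h1 x2 h2 x3 h3 x4 h4 x5 h5 x6 h6 he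
    have e := hU _ (mem_coe.2 (hm x1 (mem_coe.1 h1))) _ (mem_coe.2 (hm x2 (mem_coe.1 h2))) _
      (mem_coe.2 (hm x3 (mem_coe.1 h3))) _ (mem_coe.2 (hm x4 (mem_coe.1 h4))) _
      (mem_coe.2 (hm x5 (mem_coe.1 h5))) _ (mem_coe.2 (hm x6 (mem_coe.1 h6)))
      (by linear_combination g * he)
    have hc : ∀ u v : ℤ, c + g * u = c + g * v → u = v := by
      intro u v huv
      exact mul_left_cancel₀ hg.ne' (by linarith)
    rcases e with e | e | e
    · exact Or.inl (hc _ _ e)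
    · exact Or.inr (Or.inl (hc _ _ e))
    · exact Or.inr (Or.inr (hc _ _ e))
  · intro x hx
    obtain ⟨a, ha, rfl⟩ := mem_image.1 hx
    obtain ⟨u, h0, hX, rfl⟩ := h a ha
    rw [hdiv]
    exact ⟨h0, hX⟩

variable {k m : ℕ} [NeZero k]

/-- The value is the sum of the values of the two parts. -/
theorem val_two (P : Finset (Fin m)) (u : Fin m → Fin k) :
    val u = val (prj P u) + val (prj Pᶜ u) := by
  unfold Pool.Agent.W_a18a27_h10.val
  rw [← sum_add_distrib]
  refine sum_congr rfl fun i _ => ?_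
  by_cases hi : i ∈ P <;> simp [prj, hi]

/-- The lower part is smaller than `k ^ h`. -/
theorem val_low_lt (h : ℕ) (u : Fin m → Fin k) :
    val (prj (univ.filter fun j : Fin m => (j : ℕ) < h) u) < (k : ℤ) ^ h := by
  have hk : (1 : ℤ) ≤ k := by
    have := Nat.pos_of_ne_zero (NeZero.ne k)
    exact_mod_cast this
  have h1 : val (prj (univ.filter fun j : Fin m => (j : ℕ) < h) u) ≤
      ∑ j : Fin m, if (j : ℕ) < h then ((k : ℤ) - 1) * (k : ℤ) ^ (j : ℕ) else 0 := by
    unfold Pool.Agent.W_a18a27_h10.val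
    refine sum_le_sum fun j _ => ?_
    by_cases hj : (j : ℕ) < h
    · rw [if_pos hj]
      refine mul_le_mul_of_nonneg_right ?_ (by positivity)
      have := (prj (univ.filter fun j : Fin m => (j : ℕ) < h) u j).2
      omega
    · rw [if_neg hj]
      simp [prj, hj]
  have h2 : (∑ j : Fin m, if (j : ℕ) < h then ((k : ℤ) - 1) * (k : ℤ) ^ (j : ℕ) else 0) ≤
      ∑ j ∈ range h, ((k : ℤ) - 1) * (k : ℤ) ^ j := by
    rw [Fin.sum_univ_eq_sum_range (fun j => if j < h then ((k : ℤ) - 1) * (k : ℤ) ^ j else 0) m,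
      ← sum_filter]
    refine sum_le_sum_of_subset_of_nonneg ?_ ?_
    · intro j hj
      rw [mem_filter] at hj
      exact mem_range.2 hj.2
    · intro j _ _
      exact mul_nonneg (by linarith) (by positivity)
  have h3 : ∑ j ∈ range h, ((k : ℤ) - 1) * (k : ℤ) ^ j = (k : ℤ) ^ h - 1 := by
    rw [← mul_sum, mul_geom_sum]
  linarith

/-- The upper part is `k ^ h` times a number smaller than `k ^ (m - h)`. -/
theorem val_high {h : ℕ} (hh : h ≤ m) (u : Fin m → Fin k) :
    ∃ v : ℤ, 0 ≤ v ∧ v < ((k ^ (m - h) : ℕ) : ℤ) ∧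
      val (prj (univ.filter fun j : Fin m => (j : ℕ) < h)ᶜ u) = (k : ℤ) ^ h * v := by
  have hk : (0 : ℤ) < (k : ℤ) ^ h := by
    have := Nat.pos_of_ne_zero (NeZero.ne k)
    positivity
  have hd : (k : ℤ) ^ h ∣ val (prj (univ.filter fun j : Fin m => (j : ℕ) < h)ᶜ u) := by
    unfold Pool.Agent.W_a18a27_h10.val
    refine dvd_sum fun j _ => ?_
    by_cases hj : (j : ℕ) < h
    · have hz : prj (univ.filter fun j : Fin m => (j : ℕ) < h)ᶜ u j = 0 := by
        unfold prj
        rw [if_neg]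
        simp [hj]
      rw [hz]
      simp
    · exact (pow_dvd_pow _ (by omega)).mul_left _
  obtain ⟨v, hv⟩ := hd
  have h0 := val_nonneg (prj (univ.filter fun j : Fin m => (j : ℕ) < h)ᶜ u)
  have h1 := val_lt (prj (univ.filter fun j : Fin m => (j : ℕ) < h)ᶜ u)
  refine ⟨v, ?_, ?_, hv⟩
  · rw [hv] at h0
    exact nonneg_of_mul_nonneg_right h0 hk
  · rw [hv] at h1
    have h2 : (k : ℤ) ^ m = (k : ℤ) ^ h * (k : ℤ) ^ (m - h) := by
      rw [← pow_add]
      congr 1
      omega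
    rw [h2] at h1
    push_cast
    exact lt_of_mul_lt_mul_left h1 hk.le

/-- **One cut.** -/
theorem onecut_bound {A : Set ℤ} (hA : IsB3Z A) {h r y : ℕ} (hh : h ≤ m)
    (hc : RectCover {univ.filter fun j : Fin m => (j : ℕ) < h} r
      {x : Fin m → Fin k | val x ∈ A})
    (hy1 : 18 * k ^ h < (y + 1) ^ 3) (hy2 : 18 * k ^ (m - h) < (y + 1) ^ 3) :
    {x : Fin m → Fin k | val x ∈ A}.ncard ≤ r * (y + 2) := by
  classical
  set P : Finset (Fin m) := univ.filter fun j : Fin m => (j : ℕ) < h with hP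
  set V : Finset (Fin m → Fin k) := univ.filter fun x => val x ∈ A with hVdef
  have hV : ∀ x ∈ V, val x ∈ A := fun x hx => (mem_filter.1 hx).2
  have hcard : {x : Fin m → Fin k | val x ∈ A}.ncard = V.card := by
    rw [← Set.ncard_coe_finset, hVdef]
    congr 1
    ext x
    simp
  obtain ⟨L, S, hr, hL, hS, hcov⟩ := level hA.isSidon hc
  have himg : ∀ W : Finset (Fin m → Fin k), W ⊆ V → IsB3Z ((W.image val : Finset ℤ) : Set ℤ) := by
    intro W hW
    refine hA.mono ?_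
    intro a ha
    obtain ⟨x, hx, rfl⟩ := mem_image.1 (mem_coe.1 ha)
    exact hV x (hW hx)
  have hci : ∀ W : Finset (Fin m → Fin k), (W.image val : Finset ℤ).card = W.card := fun W =>
    card_image_of_injective _ fun x y hxy => val_inj hxy
  have h1 : ∀ e ∈ L, (V.filter fun x => prj P x = e.2).card ≤ y + 2 := by
    intro e _
    rw [← hci]
    refine card_prog_le (himg _ (filter_subset _ _)) (X := k ^ (m - h)) (c := val e.2)
      (g := (k : ℤ) ^ h) ?_ ?_ hy2
    · have := Nat.pos_of_ne_zero (NeZero.ne k)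
      positivity
    · intro a ha
      obtain ⟨x, hx, rfl⟩ := mem_image.1 ha
      obtain ⟨v, hv0, hv1, hv⟩ := val_high (k := k) hh x
      refine ⟨v, hv0, hv1, ?_⟩
      rw [val_two P x, (mem_filter.1 hx).2, hv]
  have h2 : ∀ e ∈ S, (V.filter fun x => prj Pᶜ x = e.2).card ≤ y + 2 := by
    intro e _
    rw [← hci]
    refine card_prog_le (himg _ (filter_subset _ _)) (X := k ^ h) (c := val e.2) (g := 1)
      one_pos ?_ hy1
    intro a ha
    obtain ⟨x, hx, rfl⟩ := mem_image.1 ha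
    refine ⟨val (prj P x), val_nonneg _, ?_, ?_⟩
    · push_cast
      exact val_low_lt h x
    · rw [val_two P x, (mem_filter.1 hx).2]
      ring
  have hcv : V ⊆ (L.biUnion fun e => V.filter fun x => prj P x = e.2) ∪
      S.biUnion fun e => V.filter fun x => prj Pᶜ x = e.2 := by
    intro x hx
    rw [mem_union, mem_biUnion, mem_biUnion]
    rcases hcov x (hV x hx) with ⟨Q, hQ⟩ | ⟨Q, hQ⟩
    · have hQP : Q = P := hL _ hQ
      subst hQP
      exact Or.inl ⟨_, hQ, mem_filter.2 ⟨hx, rfl⟩⟩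
    · have hQP : Q = P := hS _ hQ
      subst hQP
      exact Or.inr ⟨_, hQ, mem_filter.2 ⟨hx, rfl⟩⟩
  rw [hcard]
  calc V.card ≤ _ := card_le_card hcv
    _ ≤ _ := card_union_le _ _
    _ ≤ L.card * (y + 2) + S.card * (y + 2) :=
        Nat.add_le_add (card_biUnion_le_card_mul _ _ _ h1) (card_biUnion_le_card_mul _ _ _ h2)
    _ = (L.card + S.card) * (y + 2) := by ring
    _ ≤ r * (y + 2) := Nat.mul_le_mul_right _ hr

end Pool.Agent.W_a18a27_LC

namespace Pool.Agent.W_a18a27_h10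

open Pool.Agent.W_a18a27_LC

/-- The positions of the lower half of the digits. -/
def lowHalf (m : ℕ) : Finset (Fin m) := Finset.univ.filter fun j : Fin m => 2 * (j : ℕ) < m

theorem isB3Z_range92 {a : ℕ → ℤ}
    (hB : ∀ i j l i' j' l' : ℕ, i ≤ j → j ≤ l → i' ≤ j' → j' ≤ l' →
        a i + a j + a l = a i' + a j' + a l' → i = i' ∧ j = j' ∧ l = l') :
    IsB3Z (Set.range a) := by
  have sort : ∀ i j l : ℕ, ∃ p q r : ℕ, p ≤ q ∧ q ≤ r ∧ a i + a j + a l = a p + a q + a r ∧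
      ∀ n, (n = i ∨ n = j ∨ n = l) ↔ (n = p ∨ n = q ∨ n = r) := by
    intro i j l
    rcases le_total i j with h1 | h1 <;> rcases le_total j l with h2 | h2 <;>
      rcases le_total i l with h3 | h3
    · exact ⟨i, j, l, h1, h2, rfl, fun n => Iff.rfl⟩
    · exact ⟨i, j, l, h1, h2, rfl, fun n => Iff.rfl⟩
    · exact ⟨i, l, j, h3, h2, by ring, fun n => by tauto⟩
    · exact ⟨l, i, j, h3, h1, by ring, fun n => by tauto⟩
    · exact ⟨j, i, l, h1, h3, by ring, fun n => by tauto⟩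
    · exact ⟨j, l, i, h2, h3, by ring, fun n => by tauto⟩
    · exact ⟨l, j, i, h2, h1, by ring, fun n => by tauto⟩
    · exact ⟨l, j, i, h2, h1, by ring, fun n => by tauto⟩
  rintro _ ⟨i, rfl⟩ _ ⟨j, rfl⟩ _ ⟨l, rfl⟩ _ ⟨i', rfl⟩ _ ⟨j', rfl⟩ _ ⟨l', rfl⟩ h
  obtain ⟨p, q, r, h1, h2, h3, h4⟩ := sort i j l
  obtain ⟨p', q', r', h1', h2', h3', h4'⟩ := sort i' j' l'
  obtain ⟨rfl, rfl, rfl⟩ := hB p q r p' q' r' h1 h2 h1' h2' (by rw [← h3, ← h3', h])
  have h5 := (h4' i).2 ((h4 i).1 (Or.inl rfl))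
  rcases h5 with h5 | h5 | h5
  · exact Or.inl (by rw [h5])
  · exact Or.inr (Or.inl (by rw [h5]))
  · exact Or.inr (Or.inr (by rw [h5]))

/-- Q1 for the `B₃` sequences almost all members of which have a small cover by rectangles with
respect to the lower and the upper half of the digits. -/
theorem onecut_limsup {a : ℕ → ℤ} (ha : StrictMono a)
    (hB : ∀ i j l i' j' l' : ℕ, i ≤ j → j ≤ l → i' ≤ j' → j' ≤ l' →
        a i + a j + a l = a i' + a j' + a l' → i = i' ∧ j = j' ∧ l = l')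
    {k : ℕ} (hk : 2 ≤ k)
    (h : ∀ N : ℕ, ∃ m ≥ N, ∃ A' : Set ℤ, AlmostAll (Set.range a) A' k m N ∧
      ∃ r : ℕ, RectCover {lowHalf m} r {x : Fin m → Fin k | val x ∈ A'} ∧ N * r ^ 6 ≤ k ^ m) :
    ∀ C : ℝ, ∀ N : ℕ, ∃ n : ℕ, N ≤ n ∧ C * ((n : ℝ) + 1) ^ 3 < (a n : ℝ) := by
  classical
  have : NeZero k := ⟨by omega⟩
  refine limsup_of_approx ha fun N => ?_
  -- the constant
  set M := (486 * (N + 1)) ^ 2 * k with hM
  obtain ⟨m, hm, A', ⟨hA1, hA2⟩, r, hc, hr⟩ := h (64 * M + N + 1)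
  set g := (m + 1) / 2 with hg
  have hgm : g ≤ m := by
    have : 1 ≤ m := by omega
    omega
  have hlow : lowHalf m = Finset.univ.filter fun j : Fin m => (j : ℕ) < g := by
    unfold lowHalf
    refine Finset.filter_congr fun j _ => ?_
    omega
  -- the least `y` with `18 k ^ g < (y + 1) ^ 3`
  have hex : ∃ y : ℕ, 18 * k ^ g < (y + 1) ^ 3 := ⟨18 * k ^ g, lt_of_lt_of_le
    (Nat.lt_succ_self _) (Nat.le_self_pow (by norm_num) _)⟩
  set y := Nat.find hex with hy
  have hy1 : 18 * k ^ g < (y + 1) ^ 3 := Nat.find_spec hex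
  have hkg : 1 ≤ k ^ g := Nat.pow_pos (by omega)
  have hy0 : 1 ≤ y := by
    rcases Nat.eq_zero_or_pos y with h0 | h0
    · rw [h0] at hy1
      omega
    · exact h0
  have hy3 : y ^ 3 ≤ 18 * k ^ g := by
    have := Nat.find_min hex (m := y - 1) (by omega)
    rw [not_lt, show y - 1 + 1 = y by omega] at this
    exact this
  have hy2 : 18 * k ^ (m - g) < (y + 1) ^ 3 :=
    lt_of_le_of_lt (Nat.mul_le_mul_left _ (Nat.pow_le_pow_right (by omega) (by omega))) hy1
  have hA : IsB3Z A' := (isB3Z_range92 hB).mono hA1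
  rw [hlow] at hc
  have hbound := onecut_bound hA hgm hc hy1 hy2
  refine ⟨k, m, (r + 1) * (y + 2), A', Nat.mul_pos (by omega) (by omega), ⟨hA1, ?_⟩, ?_, ?_⟩
  · exact le_trans (Nat.mul_le_mul_right _ (by omega)) hA2
  · exact hbound.trans (Nat.mul_le_mul_right _ (by omega))
  · -- the arithmetic
    have hR : M * (r + 1) ^ 6 ≤ k ^ m := by
      rcases Nat.eq_zero_or_pos r with h0 | h0
      · rw [h0, zero_add, one_pow, mul_one]
        have h1 : m < k ^ m := Nat.lt_pow_self (by omega)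
        omega
      · calc M * (r + 1) ^ 6 ≤ M * (2 * r) ^ 6 :=
              Nat.mul_le_mul_left _ (Nat.pow_le_pow_left (by omega) 6)
          _ = (64 * M) * r ^ 6 := by ring
          _ ≤ (64 * M + N + 1) * r ^ 6 := Nat.mul_le_mul_right _ (by omega)
          _ ≤ k ^ m := hr
    have hy6 : (y + 2) ^ 3 ≤ 486 * k ^ g := by
      calc (y + 2) ^ 3 ≤ (3 * y) ^ 3 := Nat.pow_le_pow_left (by omega) 3
        _ = 27 * y ^ 3 := by ring
        _ ≤ 27 * (18 * k ^ g) := Nat.mul_le_mul_left _ hy3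
        _ = 486 * k ^ g := by ring
    refine (Nat.pow_le_pow_iff_left (show (2 : ℕ) ≠ 0 by norm_num)).1 ?_
    calc (N * ((r + 1) * (y + 2)) ^ 3) ^ 2 = N ^ 2 * (r + 1) ^ 6 * ((y + 2) ^ 3) ^ 2 := by ring
      _ ≤ (N + 1) ^ 2 * (r + 1) ^ 6 * (486 * k ^ g) ^ 2 :=
          Nat.mul_le_mul (Nat.mul_le_mul_right _ (Nat.pow_le_pow_left (by omega) 2))
            (Nat.pow_le_pow_left hy6 2)
      _ = (486 * (N + 1)) ^ 2 * (r + 1) ^ 6 * k ^ (2 * g) := by
          rw [mul_comm 2 g, pow_mul]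
          ring
      _ ≤ (486 * (N + 1)) ^ 2 * (r + 1) ^ 6 * k ^ (m + 1) :=
          Nat.mul_le_mul_left _ (Nat.pow_le_pow_right (by omega) (by omega))
      _ = M * (r + 1) ^ 6 * k ^ m := by
          rw [hM, pow_succ]
          ring
      _ ≤ k ^ m * k ^ m := Nat.mul_le_mul_right _ hR
      _ = (k ^ m) ^ 2 := by ring

end Pool.Agent.W_a18a27_h10
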