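import Pool.Agent.W_a18a27_h10.Tape

set_option autoImplicit false

/-!
The number of members of a Sidon set which is recognized by a one-tape machine.
-/

namespace Pool.Agent.W_a18a27_h10

variable {k m : ℕ} {Q Γ : Type}

/-- In each step at most one boundary is crossed. -/
theorem crs_unique {h : ℕ → ℤ} {τ : ℕ} (hm : |h (τ + 1) - h τ| ≤ 1) {p p' : ℤ}
    (h1 : Crs p h τ) (h2 : Crs p' h τ) : p = p' := by
  unfold Crs at h1 h2
  have := abs_le.1 hm
  by_cases a1 : h τ < p <;> by_cases a2 : h (τ + 1) < p <;> by_cases b1 : h τ < p' <;>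
    by_cases b2 : h (τ + 1) < p' <;> simp only [a1, a2, b1, b2, iff_true, iff_false,
      not_true_eq_false, not_false_eq_true] at h1 h2 <;> omega

open Classical in
/-- In a window of `w` boundaries some boundary is crossed at most `T / w` times. -/
theorem exists_few {h : ℕ → ℤ} {T : ℕ} (hm : ∀ τ < T, |h (τ + 1) - h τ| ≤ 1) {w : ℕ} (hw : 1 ≤ w)
    (o : ℤ) : ∃ u : Fin w, ((Finset.range T).filter fun τ => Crs (o + u) h τ).card ≤ T / w := by
  by_contra hcon
  push Not at hcon
  have h1 : ∑ u : Fin w, ((Finset.range T).filter fun τ => Crs (o + u) h τ).card ≤ T := by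
    calc ∑ u : Fin w, ((Finset.range T).filter fun τ => Crs (o + u) h τ).card
        = ∑ u : Fin w, ∑ τ ∈ Finset.range T, (if Crs (o + u) h τ then 1 else 0) := by
          refine Finset.sum_congr rfl fun u _ => ?_
          rw [Finset.card_filter]
      _ = ∑ τ ∈ Finset.range T, ∑ u : Fin w, (if Crs (o + u) h τ then 1 else 0) :=
          Finset.sum_comm
      _ ≤ ∑ τ ∈ Finset.range T, 1 := by
          refine Finset.sum_le_sum fun τ hτ => ?_
          rw [← Finset.card_filter]
          refine Finset.card_le_one.2 fun u hu v hv => ?_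
          have := crs_unique (hm τ (Finset.mem_range.1 hτ)) (Finset.mem_filter.1 hu).2
            (Finset.mem_filter.1 hv).2
          exact Fin.ext (by omega)
      _ = T := by simp
  have h2 : ∑ u : Fin w, (T / w + 1) ≤
      ∑ u : Fin w, ((Finset.range T).filter fun τ => Crs (o + u) h τ).card :=
    Finset.sum_le_sum fun u _ => hcon u
  have h3 : ∑ u : Fin w, (T / w + 1) = w * (T / w + 1) := by simp
  have h4 : T < w * (T / w + 1) := Nat.lt_mul_div_succ T (by omega)
  omega

/-- A set with at most `c` elements can be listed by `c` optional values. -/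
theorem exists_list {α : Type} [DecidableEq α] (E : Finset α) {c : ℕ} (hc : E.card ≤ c) :
    ∃ e : Fin c → Option α, ∀ a, a ∈ E ↔ ∃ i, e i = some a := by
  refine ⟨fun i => E.toList[(i : ℕ)]?, fun a => ?_⟩
  rw [← Finset.mem_toList, List.mem_iff_getElem?]
  constructor
  · rintro ⟨i, hi⟩
    have h1 : i < E.toList.length := by
      by_contra hcon
      rw [List.getElem?_eq_none (by omega)] at hi
      exact absurd hi (by simp)
    rw [Finset.length_toList] at h1
    exact ⟨⟨i, by omega⟩, hi⟩
  · rintro ⟨i, hi⟩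
    exact ⟨i, hi⟩

/-- The family of the sets of positions to the left of the boundaries in a window. -/
def Machine.window (M : Machine k m Q Γ) (w : ℕ) (o : ℤ) : Set (Finset (Fin m)) :=
  {P | ∃ u : Fin w, P = M.left (o + u)}

theorem cover [Fintype Q] {M : Machine k m Q Γ} {T : ℕ} {A : Set ℤ} (hM : M.Recognizes T A)
    {w : ℕ} (hw : 1 ≤ w) (o : ℤ) :
    RectCover (M.window w o) (w * (T * Fintype.card Q + 1) ^ (T / w))
      {x : Fin m → Fin k | val x ∈ A} := by
  classical
  let Lab := Fin w × (Fin (T / w) → Option (Fin T × Q))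
  have hcard : Fintype.card Lab = w * (T * Fintype.card Q + 1) ^ (T / w) := by
    simp [Lab]
  let G : Lab → Set (Fin m → Fin k) := fun l => {x | ∃ s h t, M.IsRun x T s h t ∧
    ∀ (τ : Fin T) (q : Q), (Crs (o + l.1) h τ ∧ s (τ + 1) = q) ↔ ∃ i, l.2 i = some (τ, q)}
  have hG : ∀ l, IsRect (M.left (o + l.1)) (G l) := by
    rintro l x ⟨s, h, t, r, hr⟩ x' ⟨s', h', t', r', hr'⟩
    obtain ⟨s'', h'', t'', r'', hr''⟩ := mix r r' (o + l.1) (fun τ hτ q =>
      (hr ⟨τ, hτ⟩ q).trans (hr' ⟨τ, hτ⟩ q).symm)
    exact ⟨s'', h'', t'', r'', fun τ q => (hr'' τ τ.2 q).trans (hr τ q)⟩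
  let eqv := Fintype.equivFinOfCardEq hcard
  refine ⟨fun i => G (eqv.symm i), fun i => ⟨_, ⟨(eqv.symm i).1, rfl⟩, hG _⟩, ?_⟩
  ext x
  simp only [Set.mem_iUnion]
  constructor
  · intro hx
    obtain ⟨s, h, t, r⟩ := (hM x).2 hx
    obtain ⟨u, hu⟩ := exists_few r.move hw o
    let E : Finset (Fin T × Q) := Finset.univ.filter fun a =>
      Crs (o + u) h a.1 ∧ s (a.1 + 1) = a.2
    have hE : E.card ≤ T / w := by
      refine le_trans ?_ hu
      refine Finset.card_le_card_of_injOn (fun a => (a.1 : ℕ)) ?_ ?_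
      · intro a ha
        have := (Finset.mem_filter.1 (Finset.mem_coe.1 ha)).2
        exact Finset.mem_coe.2 (Finset.mem_filter.2 ⟨Finset.mem_range.2 a.1.2, this.1⟩)
      · intro a ha b hb hab
        have h1 := (Finset.mem_filter.1 (Finset.mem_coe.1 ha)).2
        have h2 := (Finset.mem_filter.1 (Finset.mem_coe.1 hb)).2
        have h3 : a.1 = b.1 := Fin.ext hab
        exact Prod.ext h3 (by rw [← h1.2, ← h2.2, h3])
    obtain ⟨e, he⟩ := exists_list E hE
    refine ⟨eqv (u, e), ?_⟩
    rw [Equiv.symm_apply_apply]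
    refine ⟨s, h, t, r, fun τ q => ?_⟩
    rw [← he (τ, q)]
    simp [E]
  · rintro ⟨i, s, h, t, r, -⟩
    exact (hM x).1 ⟨s, h, t, r⟩

theorem card_left_sdiff (M : Machine k m Q Γ) {p p' : ℤ} {b : ℕ} (h : p' ≤ p + b) :
    (M.left p' \ M.left p).card ≤ b := by
  classical
  have h1 : (Finset.Ico p (p + b)).card = b := by simp
  refine le_trans ?_ (le_of_eq h1)
  refine Finset.card_le_card_of_injOn (fun j => ((M.lay.symm j : ℕ) : ℤ)) ?_ ?_
  · intro j hj
    have := Finset.mem_sdiff.1 (Finset.mem_coe.1 hj)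
    unfold Machine.left at this
    simp only [Finset.mem_filter, Finset.mem_univ, true_and, not_lt] at this
    have h2 : ((M.lay.symm j : ℕ) : ℤ) < p + b := by omega
    exact Finset.mem_coe.2 (Finset.mem_Ico.2 ⟨this.2, h2⟩)
  · intro j _ j' _ hjj
    have hjj' : ((M.lay.symm j : ℕ) : ℤ) = ((M.lay.symm j' : ℕ) : ℤ) := hjj
    have : M.lay.symm j = M.lay.symm j' := Fin.ext (by exact_mod_cast hjj')
    exact M.lay.symm.injective this

/-- **Sidon sets which are recognized quickly by one-tape machines are small.** -/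
theorem machine_bound [Fintype Q] {A : Set ℤ} (hA : IsSidon A) (hk : 1 ≤ k)
    {M : Machine k m Q Γ} {T : ℕ} (hM : M.Recognizes T A) {w d : ℕ} (hw : 1 ≤ w)
    (hmd : m ≤ (d + 1) * w) :
    {x : Fin m → Fin k | val x ∈ A}.ncard ≤
      (d + 1) * (w * (T * Fintype.card Q + 1) ^ (T / w)) ^ d * k ^ (2 * w) := by
  classical
  have hl0 : M.left 0 = ∅ := by
    unfold Machine.left
    rw [Finset.filter_eq_empty_iff]
    intro j _
    omega
  have hlm : M.left m = Finset.univ := by
    unfold Machine.left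
    rw [Finset.filter_eq_self]
    intro j _
    have := (M.lay.symm j).2
    exact_mod_cast this
  refine card_le hA hk (d := d) (b := 2 * w)
    (fun i => if i = 0 then {∅} else if i ≤ d then M.window w ((i - 1 : ℕ) * w + 1) else {Finset.univ})
    (by simp) (by simp) ?_ ?_
  · intro i hi P hP P' hP'
    -- each member of the families is of the form `left p`
    have h1 : ∃ p : ℤ, P = M.left p ∧ ((i : ℤ) - 1) * w ≤ p ∧ (i = 0 → p = 0) := by
      change P ∈ (if i = 0 then ({∅} : Set (Finset (Fin m))) else if i ≤ d then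
        M.window w ((i - 1 : ℕ) * w + 1) else {Finset.univ}) at hP
      by_cases h0 : i = 0
      · rw [if_pos h0] at hP
        refine ⟨0, by rw [hl0]; exact hP, ?_, fun _ => rfl⟩
        rw [h0]
        push_cast
        have : (0 : ℤ) ≤ w := by positivity
        linarith
      · rw [if_neg h0, if_pos hi] at hP
        obtain ⟨u, hu⟩ := hP
        refine ⟨_, hu, ?_, fun e => absurd e h0⟩
        have e1 : ((i - 1 : ℕ) : ℤ) = (i : ℤ) - 1 := by omega
        rw [e1]
        have : (0 : ℤ) ≤ ((u : ℕ) : ℤ) := by positivity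
        linarith
    have h2 : ∃ p' : ℤ, P' = M.left p' ∧ p' ≤ ((i : ℤ) + 1) * w := by
      change P' ∈ (if i + 1 = 0 then ({∅} : Set (Finset (Fin m))) else if i + 1 ≤ d then
        M.window w ((i + 1 - 1 : ℕ) * w + 1) else {Finset.univ}) at hP'
      rw [if_neg (by omega)] at hP'
      by_cases h0 : i + 1 ≤ d
      · rw [if_pos h0] at hP'
        obtain ⟨u, hu⟩ := hP'
        refine ⟨_, hu, ?_⟩
        have e1 : ((i + 1 - 1 : ℕ) : ℤ) = (i : ℤ) := by omega
        rw [e1]
        have : ((u : ℕ) : ℤ) + 1 ≤ w := by have := u.2; omega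
        linarith
      · rw [if_neg h0] at hP'
        refine ⟨m, by rw [hlm]; exact hP', ?_⟩
        have : i = d := by omega
        rw [this]
        exact_mod_cast hmd
    obtain ⟨p, rfl, hp, hp0⟩ := h1
    obtain ⟨p', rfl, hp'⟩ := h2
    refine card_left_sdiff M ?_
    push_cast
    linarith
  · intro i h1 h2
    show RectCover (if i = 0 then ({∅} : Set (Finset (Fin m))) else if i ≤ d then
        M.window w ((i - 1 : ℕ) * w + 1) else {Finset.univ}) _ _
    rw [if_neg (by omega), if_pos h2]
    exact cover hM hw _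

end Pool.Agent.W_a18a27_h10
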