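import Mathlib

/-!
# Bipartite graphs without cycles of length four and six

A bipartite graph is a finite set `E` of pairs. If it has no cycle of length four or six and the
second side has fewer than `(t + 1) t²` vertices, then it has at most `t (|A| + |B|)` edges.
-/

set_option autoImplicit false

namespace Pool.Agent.W_a18a27_LC

open Finset

variable {X Y : Type*} [DecidableEq X] [DecidableEq Y]

/-- The edges with end points in `A` and `B`. -/
def edg (E : Finset (X × Y)) (A : Finset X) (B : Finset Y) : Finset (X × Y) :=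
  E.filter fun e => e.1 ∈ A ∧ e.2 ∈ B

/-- The neighbours in `B` of `x`. -/
def nbr (E : Finset (X × Y)) (B : Finset Y) (x : X) : Finset Y := B.filter fun y => (x, y) ∈ E

/-- The neighbours in `A` of `y`. -/
def nbl (E : Finset (X × Y)) (A : Finset X) (y : Y) : Finset X := A.filter fun x => (x, y) ∈ E

theorem mem_nbr {E : Finset (X × Y)} {B : Finset Y} {x : X} {y : Y} :
    y ∈ nbr E B x ↔ y ∈ B ∧ (x, y) ∈ E := by simp [nbr]

theorem mem_nbl {E : Finset (X × Y)} {A : Finset X} {x : X} {y : Y} :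
    x ∈ nbl E A y ↔ x ∈ A ∧ (x, y) ∈ E := by simp [nbl]

theorem mem_edg {E : Finset (X × Y)} {A : Finset X} {B : Finset Y} {e : X × Y} :
    e ∈ edg E A B ↔ e ∈ E ∧ e.1 ∈ A ∧ e.2 ∈ B := by simp [edg]

theorem card_erase_left (E : Finset (X × Y)) (A : Finset X) (B : Finset Y) {x : X} (hx : x ∈ A) :
    (edg E A B).card = (edg E (A.erase x) B).card + (nbr E B x).card := by
  have h : edg E A B = edg E (A.erase x) B ∪ (nbr E B x).image fun y => (x, y) := by
    ext ⟨a, b⟩
    simp only [mem_union, mem_edg, mem_erase, mem_image, mem_nbr, Prod.mk.injEq]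
    constructor
    · rintro ⟨h1, h2, h3⟩
      by_cases hax : a = x
      · right
        exact ⟨b, ⟨h3, hax ▸ h1⟩, hax.symm, rfl⟩
      · left
        exact ⟨h1, ⟨hax, h2⟩, h3⟩
    · rintro (⟨h1, ⟨-, h2⟩, h3⟩ | ⟨b', ⟨h1, h2⟩, rfl, rfl⟩)
      · exact ⟨h1, h2, h3⟩
      · exact ⟨h2, hx, h1⟩
  rw [h, card_union_of_disjoint, card_image_of_injective]
  · intro y y' hy
    simpa using hy
  · rw [disjoint_left]
    rintro ⟨a, b⟩ h1 h2
    rw [mem_edg] at h1
    simp only [mem_image, Prod.mk.injEq] at h2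
    obtain ⟨-, -, h3, -⟩ := h2
    exact (mem_erase.1 h1.2.1).1 h3.symm

theorem card_erase_right (E : Finset (X × Y)) (A : Finset X) (B : Finset Y) {y : Y} (hy : y ∈ B) :
    (edg E A B).card = (edg E A (B.erase y)).card + (nbl E A y).card := by
  have h : edg E A B = edg E A (B.erase y) ∪ (nbl E A y).image fun x => (x, y) := by
    ext ⟨a, b⟩
    simp only [mem_union, mem_edg, mem_erase, mem_image, mem_nbl, Prod.mk.injEq]
    constructor
    · rintro ⟨h1, h2, h3⟩
      by_cases hby : b = y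
      · right
        exact ⟨a, ⟨h2, hby ▸ h1⟩, rfl, hby.symm⟩
      · left
        exact ⟨h1, h2, hby, h3⟩
    · rintro (⟨h1, h2, -, h3⟩ | ⟨a', ⟨h1, h2⟩, rfl, rfl⟩)
      · exact ⟨h1, h2, h3⟩
      · exact ⟨h2, h1, hy⟩
  rw [h, card_union_of_disjoint, card_image_of_injective]
  · intro x x' hx
    simpa using hx
  · rw [disjoint_left]
    rintro ⟨a, b⟩ h1 h2
    rw [mem_edg] at h1
    simp only [mem_image, Prod.mk.injEq] at h2
    obtain ⟨-, -, -, h3⟩ := h2
    exact (mem_erase.1 h1.2.2).1 h3.symm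

/-- A graph with more than `t (|A| + |B|)` edges contains a nonempty part in which all degrees
exceed `t`. -/
theorem exists_core (E : Finset (X × Y)) (t : ℕ) : ∀ (n : ℕ) (A : Finset X) (B : Finset Y),
    A.card + B.card = n → t * (A.card + B.card) < (edg E A B).card →
    ∃ A' ⊆ A, ∃ B' ⊆ B, (edg E A' B').Nonempty ∧ (∀ x ∈ A', t < (nbr E B' x).card) ∧
      ∀ y ∈ B', t < (nbl E A' y).card := by
  intro n
  induction n with
  | zero =>
    intro A B hn h
    have hA : A = ∅ := by rw [← card_eq_zero]; omega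
    have hB : B = ∅ := by rw [← card_eq_zero]; omega
    subst hA hB
    simp [edg] at h
  | succ n ih =>
    intro A B hn h
    by_cases h1 : ∀ x ∈ A, t < (nbr E B x).card
    · by_cases h2 : ∀ y ∈ B, t < (nbl E A y).card
      · exact ⟨A, Subset.refl _, B, Subset.refl _, card_pos.1 (by omega), h1, h2⟩
      · push Not at h2
        obtain ⟨y, hy, hd⟩ := h2
        have hc := card_erase_right E A B hy
        have hc2 : (B.erase y).card + 1 = B.card := card_erase_add_one hy
        obtain ⟨A', hA', B', hB', h3⟩ := ih A (B.erase y) (by omega) (by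
          have : t * (A.card + B.card) = t * (A.card + (B.erase y).card) + t := by
            rw [← hc2]
            ring
          omega)
        exact ⟨A', hA', B', hB'.trans (erase_subset _ _), h3⟩
    · push Not at h1
      obtain ⟨x, hx, hd⟩ := h1
      have hc := card_erase_left E A B hx
      have hc2 : (A.erase x).card + 1 = A.card := card_erase_add_one hx
      obtain ⟨A', hA', B', hB', h3⟩ := ih (A.erase x) B (by omega) (by
        have : t * (A.card + B.card) = t * ((A.erase x).card + B.card) + t := by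
          rw [← hc2]
          ring
        omega)
      exact ⟨A', hA'.trans (erase_subset _ _), B', hB', h3⟩

/-- No cycle of length four. -/
def NoFour (E : Finset (X × Y)) : Prop :=
  ∀ x x' y y', x ≠ x' → y ≠ y' → (x, y) ∈ E → (x', y) ∈ E → (x, y') ∈ E → (x', y') ∉ E

/-- No cycle of length six. -/
def NoSix (E : Finset (X × Y)) : Prop :=
  ∀ x₁ x₂ x₃ y₁ y₂ y₃, x₁ ≠ x₂ → x₁ ≠ x₃ → x₂ ≠ x₃ → y₁ ≠ y₂ → y₁ ≠ y₃ → y₂ ≠ y₃ →
    (x₁, y₁) ∈ E → (x₂, y₁) ∈ E → (x₂, y₂) ∈ E → (x₃, y₂) ∈ E → (x₃, y₃) ∈ E → (x₁, y₃) ∉ E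

/-- A bipartite graph without cycles of length four and six. -/
theorem girth_bound (E : Finset (X × Y)) (A : Finset X) (B : Finset Y) (h4 : NoFour E)
    (h6 : NoSix E) (hE : ∀ e ∈ E, e.1 ∈ A ∧ e.2 ∈ B) (t : ℕ) (ht : B.card < (t + 1) * t * t) :
    E.card ≤ t * (A.card + B.card) := by
  by_contra hlt
  push Not at hlt
  have hEE : edg E A B = E := by
    unfold edg
    rw [filter_eq_self]
    exact hE
  obtain ⟨A', hA', B', hB', hne, hdx, hdy⟩ := exists_core E t _ A B rfl (by rw [hEE]; exact hlt)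
  obtain ⟨⟨x₀, y₀⟩, he⟩ := hne
  obtain ⟨-, hx₀, -⟩ := mem_edg.1 he
  set T : Finset (Σ _ : Y, Σ _ : X, Y) := (nbr E B' x₀).sigma fun y₁ =>
    ((nbl E A' y₁).erase x₀).sigma fun x₁ => (nbr E B' x₁).erase y₁ with hT
  have hcard : (t + 1) * t * t ≤ T.card := by
    rw [hT, card_sigma]
    have h1 : ∀ y₁ ∈ nbr E B' x₀, t * t ≤ (((nbl E A' y₁).erase x₀).sigma fun x₁ =>
        (nbr E B' x₁).erase y₁).card := by
      intro y₁ hy₁
      obtain ⟨hy₁B, hy₁E⟩ := mem_nbr.1 hy₁
      rw [card_sigma]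
      have h2 : t ≤ ((nbl E A' y₁).erase x₀).card := by
        have := hdy y₁ hy₁B
        have h3 : x₀ ∈ nbl E A' y₁ := mem_nbl.2 ⟨hx₀, hy₁E⟩
        have := card_erase_add_one h3
        omega
      have h3 : ∀ x₁ ∈ (nbl E A' y₁).erase x₀, t ≤ ((nbr E B' x₁).erase y₁).card := by
        intro x₁ hx₁
        obtain ⟨hx₁A, hx₁E⟩ := mem_nbl.1 (mem_of_mem_erase hx₁)
        have h4 : y₁ ∈ nbr E B' x₁ := mem_nbr.2 ⟨hy₁B, hx₁E⟩
        have := card_erase_add_one h4
        have := hdx x₁ hx₁A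
        omega
      calc t * t ≤ ((nbl E A' y₁).erase x₀).card * t := Nat.mul_le_mul_right _ h2
        _ = ∑ _x ∈ (nbl E A' y₁).erase x₀, t := by rw [sum_const, smul_eq_mul]
        _ ≤ _ := sum_le_sum h3
    calc (t + 1) * t * t = (t + 1) * (t * t) := by ring
      _ ≤ (nbr E B' x₀).card * (t * t) := Nat.mul_le_mul_right _ (hdx x₀ hx₀)
      _ = ∑ _y ∈ nbr E B' x₀, t * t := by rw [sum_const, smul_eq_mul]
      _ ≤ _ := sum_le_sum h1
  have hinj : T.card ≤ B'.card := by
    refine card_le_card_of_injOn (fun s => s.2.2) ?_ ?_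
    · rintro ⟨y₁, x₁, y⟩ hs
      rw [hT, mem_coe, mem_sigma, mem_sigma] at hs
      exact (mem_nbr.1 (mem_of_mem_erase hs.2.2)).1
    · rintro ⟨y₁, x₁, y⟩ hs ⟨y₂, x₂, y'⟩ hs' heq
      simp only at heq
      subst heq
      rw [hT, mem_coe, mem_sigma, mem_sigma] at hs hs'
      obtain ⟨hs1, hs2, hs3⟩ := hs
      obtain ⟨hs1', hs2', hs3'⟩ := hs'
      simp only at hs1 hs2 hs3 hs1' hs2' hs3'
      have e1 := (mem_nbr.1 hs1).2
      have e1' := (mem_nbr.1 hs1').2
      have n2 := (mem_erase.1 hs2).1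
      have n2' := (mem_erase.1 hs2').1
      have e2 := (mem_nbl.1 (mem_of_mem_erase hs2)).2
      have e2' := (mem_nbl.1 (mem_of_mem_erase hs2')).2
      have n3 := (mem_erase.1 hs3).1
      have n3' := (mem_erase.1 hs3').1
      have e3 := (mem_nbr.1 (mem_of_mem_erase hs3)).2
      have e3' := (mem_nbr.1 (mem_of_mem_erase hs3')).2
      by_cases hx : x₁ = x₂
      · subst hx
        by_cases hy : y₁ = y₂
        · subst hy
          rfl
        · exact absurd e2' (h4 x₀ x₁ y₁ y₂ (Ne.symm n2) hy e1 e2 e1')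
      · exfalso
        by_cases hy : y₁ = y₂
        · subst hy
          exact h4 x₁ x₂ y₁ y hx (Ne.symm n3) e2 e2' e3 e3'
        · exact h6 x₀ x₁ x₂ y₁ y y₂ (Ne.symm n2) (Ne.symm n2') hx (Ne.symm n3) hy n3'
            e1 e2 e3 e3' e2' e1'
  have := card_le_card hB'
  omega

/-- A bipartite graph without cycles of length four. -/
theorem four_bound (E : Finset (X × Y)) (A : Finset X) (B : Finset Y) (h4 : NoFour E)
    (hE : ∀ e ∈ E, e.1 ∈ A ∧ e.2 ∈ B) (t : ℕ) (ht : A.card < (t + 1) * t) :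
    E.card ≤ t * (A.card + B.card) := by
  by_contra hlt
  push Not at hlt
  have hEE : edg E A B = E := by
    unfold edg
    rw [filter_eq_self]
    exact hE
  obtain ⟨A', hA', B', hB', hne, hdx, hdy⟩ := exists_core E t _ A B rfl (by rw [hEE]; exact hlt)
  obtain ⟨⟨x₀, y₀⟩, he⟩ := hne
  obtain ⟨-, hx₀, -⟩ := mem_edg.1 he
  set T : Finset (Σ _ : Y, X) := (nbr E B' x₀).sigma fun y₁ => (nbl E A' y₁).erase x₀ with hT
  have hcard : (t + 1) * t ≤ T.card := by
    rw [hT, card_sigma]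
    have h1 : ∀ y₁ ∈ nbr E B' x₀, t ≤ ((nbl E A' y₁).erase x₀).card := by
      intro y₁ hy₁
      obtain ⟨hy₁B, hy₁E⟩ := mem_nbr.1 hy₁
      have := hdy y₁ hy₁B
      have h3 : x₀ ∈ nbl E A' y₁ := mem_nbl.2 ⟨hx₀, hy₁E⟩
      have := card_erase_add_one h3
      omega
    calc (t + 1) * t ≤ (nbr E B' x₀).card * t := Nat.mul_le_mul_right _ (hdx x₀ hx₀)
      _ = ∑ _y ∈ nbr E B' x₀, t := by rw [sum_const, smul_eq_mul]
      _ ≤ _ := sum_le_sum h1
  have hinj : T.card ≤ A'.card := by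
    refine card_le_card_of_injOn (fun s => s.2) ?_ ?_
    · rintro ⟨y₁, x₁⟩ hs
      rw [hT, mem_coe, mem_sigma] at hs
      exact (mem_nbl.1 (mem_of_mem_erase hs.2)).1
    · rintro ⟨y₁, x₁⟩ hs ⟨y₂, x₂⟩ hs' heq
      simp only at heq
      subst heq
      rw [hT, mem_coe, mem_sigma] at hs hs'
      obtain ⟨hs1, hs2⟩ := hs
      obtain ⟨hs1', hs2'⟩ := hs'
      simp only at hs1 hs2 hs1' hs2'
      have e1 := (mem_nbr.1 hs1).2
      have e1' := (mem_nbr.1 hs1').2
      have n2 := (mem_erase.1 hs2).1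
      have e2 := (mem_nbl.1 (mem_of_mem_erase hs2)).2
      have e2' := (mem_nbl.1 (mem_of_mem_erase hs2')).2
      by_cases hy : y₁ = y₂
      · subst hy
        rfl
      · exact absurd e2' (h4 x₀ x₁ y₁ y₂ (Ne.symm n2) hy e1 e2 e1')
  have := card_le_card hA'
  omega

end Pool.Agent.W_a18a27_LC
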