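import Pool.Agent.W_a18a27_h10.Core
import Pool.Agent.W_a18a27_h10.Girth92

/-!
# Sets of integers whose digit strings have few rectangles at every cut

The count for Sidon sets (graphs without cycles of length four) and for `B₃` sets (graphs without
cycles of length four and six).
-/

set_option autoImplicit false

namespace Pool.Agent.W_a18a27_h10

/-- `B₃` sets of integers: the sums of three members determine the members. -/
def IsB3Z (A : Set ℤ) : Prop :=
  ∀ a ∈ A, ∀ b ∈ A, ∀ c ∈ A, ∀ a' ∈ A, ∀ b' ∈ A, ∀ c' ∈ A,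
    a + b + c = a' + b' + c' → a = a' ∨ a = b' ∨ a = c'

theorem IsB3Z.isSidon {A : Set ℤ} (h : IsB3Z A) : IsSidon A := by
  intro a ha b hb c hc d hd he
  rcases h a ha b hb c hc c hc d hd c hc (by linarith) with h1 | h1 | h1
  · exact Or.inl h1
  · exact Or.inr h1
  · exact Or.inl h1

theorem IsB3Z.mono {A A' : Set ℤ} (hA : IsB3Z A) (h : A' ⊆ A) : IsB3Z A' :=
  fun a ha b hb c hc a' ha' b' hb' c' hc' =>
    hA a (h ha) b (h hb) c (h hc) a' (h ha') b' (h hb') c' (h hc')

end Pool.Agent.W_a18a27_h10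

namespace Pool.Agent.W_a18a27_LC

open Finset hiding val
open Pool.Agent.W_a18a27_h10

variable {k m : ℕ} [NeZero k]

/-- The string `u` with the digits at the positions outside `P` replaced by `0`. -/
def prj (P : Finset (Fin m)) (u : Fin m → Fin k) : Fin m → Fin k := fun i => if i ∈ P then u i else 0

theorem prj_empty (u : Fin m → Fin k) : prj ∅ u = 0 := by
  funext i
  simp [prj]

/-- The value is the sum of the values of the parts. -/
theorem val_split (P Q : Finset (Fin m)) (u : Fin m → Fin k) :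
    val u = val (prj P u) + val (prj (Q \ P) u) + val (prj Pᶜ (prj Qᶜ u)) := by
  unfold val
  rw [← sum_add_distrib, ← sum_add_distrib]
  refine sum_congr rfl fun i _ => ?_
  unfold prj
  by_cases hP : i ∈ P
  · simp [hP]
  · by_cases hQ : i ∈ Q
    · simp [hP, hQ]
    · simp [hP, hQ]

/-- Equal parts: equal strings. -/
theorem eq_of_parts (P Q : Finset (Fin m)) (u v : Fin m → Fin k)
    (h1 : prj P u = prj P v) (h2 : prj (Q \ P) u = prj (Q \ P) v) (h3 : prj Qᶜ u = prj Qᶜ v) :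
    u = v := by
  funext i
  have e1 := congrFun h1 i
  have e2 := congrFun h2 i
  have e3 := congrFun h3 i
  unfold prj at e1 e2 e3
  by_cases hP : i ∈ P
  · simpa [hP] using e1
  · by_cases hQ : i ∈ Q
    · simpa [hP, hQ] using e2
    · simpa [hQ] using e3

/-- The strings with digits `0` outside `D`. -/
def sup (k : ℕ) [NeZero k] {m : ℕ} (D : Finset (Fin m)) : Finset (Fin m → Fin k) :=
  univ.filter fun u => prj D u = u

theorem card_sup_le (D : Finset (Fin m)) : (sup k D).card ≤ k ^ D.card := by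
  classical
  have h : (sup k D).card ≤ Fintype.card (D → Fin k) := by
    rw [← card_univ]
    refine card_le_card_of_injOn (fun u => fun i : D => u i) (fun _ _ => mem_coe.2 (mem_univ _)) ?_
    intro u hu v hv h
    rw [mem_coe, sup, mem_filter] at hu hv
    funext i
    by_cases hi : i ∈ D
    · exact congrFun h ⟨i, hi⟩
    · rw [← hu.2, ← hv.2]
      simp [prj, hi]
  refine h.trans ?_
  rw [Fintype.card_fun, Fintype.card_fin, Fintype.card_coe]

theorem prj_mem_sup (D : Finset (Fin m)) (u : Fin m → Fin k) : prj D u ∈ sup k D := by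
  rw [sup, mem_filter]
  refine ⟨mem_univ _, ?_⟩
  funext i
  by_cases hi : i ∈ D <;> simp [prj, hi]

/-- The condition on `t`, if the first side has at most `n` and the second at most `n'` vertices. -/
def Good (A : Set ℤ) (n n' t : ℕ) : Prop :=
  (IsSidon A ∧ n < (t + 1) * t) ∨ (IsB3Z A ∧ n' < (t + 1) * t * t)

/-- The strings in `V` whose parts on `P`, on `Q \ P` and outside `Q` are in `L`, equal to `c` and
in `S`. -/
def fib (V : Finset (Fin m → Fin k)) (P Q : Finset (Fin m)) (L S : Finset (Fin m → Fin k))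
    (c : Fin m → Fin k) : Finset (Fin m → Fin k) :=
  V.filter fun a => prj P a ∈ L ∧ prj Qᶜ a ∈ S ∧ prj (Q \ P) a = c

theorem card_fib_le {A : Set ℤ} {V : Finset (Fin m → Fin k)} (hV : ∀ x ∈ V, val x ∈ A)
    (P Q : Finset (Fin m)) (L S : Finset (Fin m → Fin k)) (c : Fin m → Fin k) {t : ℕ}
    (ht : Good A L.card S.card t) :
    (fib V P Q L S c).card ≤ t * (L.card + S.card) := by
  classical
  set E : Finset ((Fin m → Fin k) × (Fin m → Fin k)) :=
    (fib V P Q L S c).image fun a => (prj P a, prj Qᶜ a) with hE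
  have hinj : (fib V P Q L S c).card = E.card := by
    rw [hE, card_image_of_injOn]
    intro u hu v hv h
    rw [mem_coe, fib, mem_filter] at hu hv
    simp only [Prod.mk.injEq] at h
    exact eq_of_parts P Q u v h.1 (hu.2.2.2.trans hv.2.2.2.symm) h.2
  have hmem : ∀ x y, (x, y) ∈ E → ∃ a ∈ V, prj P a = x ∧ prj Qᶜ a = y ∧
      val a = val x + val c + val (prj Pᶜ y) := by
    intro x y hxy
    rw [hE, mem_image] at hxy
    obtain ⟨a, ha, he⟩ := hxy
    rw [fib, mem_filter] at ha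
    simp only [Prod.mk.injEq] at he
    refine ⟨a, ha.1, he.1, he.2, ?_⟩
    rw [val_split P Q a, he.1, he.2, ha.2.2.2]
  have hfour : IsSidon A → NoFour E := by
    intro hA x x' y y' hx hy h1 h2 h3 h4
    obtain ⟨a1, ha1, hx1, hy1, hv1⟩ := hmem _ _ h1
    obtain ⟨a2, ha2, hx2, hy2, hv2⟩ := hmem _ _ h2
    obtain ⟨a3, ha3, hx3, hy3, hv3⟩ := hmem _ _ h3
    obtain ⟨a4, ha4, hx4, hy4, hv4⟩ := hmem _ _ h4
    rcases hA _ (hV a1 ha1) _ (hV a4 ha4) _ (hV a2 ha2) _ (hV a3 ha3) (by linarith) with h | h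
    · exact hx (by rw [← hx1, ← hx2, val_inj h])
    · exact hy (by rw [← hy1, ← hy3, val_inj h])
  have hEE : ∀ e ∈ E, e.1 ∈ L ∧ e.2 ∈ S := by
    intro e he
    rw [hE, mem_image] at he
    obtain ⟨a, ha, rfl⟩ := he
    rw [fib, mem_filter] at ha
    exact ⟨ha.2.1, ha.2.2.1⟩
  rw [hinj]
  rcases ht with ⟨hA, ht⟩ | ⟨hA, ht⟩
  · exact four_bound E L S (hfour hA) hEE t ht
  · refine girth_bound E L S (hfour hA.isSidon) ?_ hEE t ht
    intro x1 x2 x3 y1 y2 y3 hx12 hx13 hx23 hy12 hy13 hy23 h1 h2 h3 h4 h5 h6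
    obtain ⟨a1, ha1, hx1, hy1, hv1⟩ := hmem _ _ h1
    obtain ⟨a2, ha2, hx2, hy2, hv2⟩ := hmem _ _ h2
    obtain ⟨a3, ha3, hx3, hy3, hv3⟩ := hmem _ _ h3
    obtain ⟨a4, ha4, hx4, hy4, hv4⟩ := hmem _ _ h4
    obtain ⟨a5, ha5, hx5, hy5, hv5⟩ := hmem _ _ h5
    obtain ⟨a6, ha6, hx6, hy6, hv6⟩ := hmem _ _ h6
    -- x1y1 + x2y2 + x3y3 = x2y1 + x3y2 + x1y3
    rcases hA _ (hV a1 ha1) _ (hV a3 ha3) _ (hV a5 ha5) _ (hV a2 ha2) _ (hV a4 ha4) _ (hV a6 ha6)
      (by linarith) with h | h | h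
    · exact hx12 (by rw [← hx1, ← hx2, val_inj h])
    · exact hx13 (by rw [← hx1, ← hx4, val_inj h])
    · exact hy13 (by rw [← hy1, ← hy6, val_inj h])

theorem card_pair_le {A : Set ℤ} {V : Finset (Fin m → Fin k)} (hV : ∀ x ∈ V, val x ∈ A)
    (P Q : Finset (Fin m)) (L S : Finset (Fin m → Fin k)) {t b : ℕ}
    (ht : Good A L.card S.card t) (hb : (Q \ P).card ≤ b) :
    (V.filter fun a => prj P a ∈ L ∧ prj Qᶜ a ∈ S).card ≤ k ^ b * (t * (L.card + S.card)) := by
  classical
  have h1 : (V.filter fun a => prj P a ∈ L ∧ prj Qᶜ a ∈ S) ⊆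
      (sup k (Q \ P)).biUnion fun c => fib V P Q L S c := by
    intro a ha
    rw [mem_filter] at ha
    rw [mem_biUnion]
    refine ⟨prj (Q \ P) a, prj_mem_sup _ _, ?_⟩
    rw [fib, mem_filter]
    exact ⟨ha.1, ha.2.1, ha.2.2, rfl⟩
  calc _ ≤ ((sup k (Q \ P)).biUnion fun c => fib V P Q L S c).card := card_le_card h1
    _ ≤ ∑ c ∈ sup k (Q \ P), (fib V P Q L S c).card := card_biUnion_le
    _ ≤ ∑ _c ∈ sup k (Q \ P), t * (L.card + S.card) :=
        sum_le_sum fun c _ => card_fib_le hV P Q L S c ht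
    _ = (sup k (Q \ P)).card * (t * (L.card + S.card)) := by
        rw [sum_const, smul_eq_mul]
    _ ≤ k ^ b * (t * (L.card + S.card)) :=
        Nat.mul_le_mul_right _ ((card_sup_le _).trans
          (Nat.pow_le_pow_right (Nat.pos_of_ne_zero (NeZero.ne k)) hb))

/-- A rectangle inside a Sidon set is constant on `P` or constant off `P`. -/
theorem rect_const {A : Set ℤ} (hA : IsSidon A) {P : Finset (Fin m)} {R : Set (Fin m → Fin k)}
    (hR : IsRect P R) (hRA : ∀ x ∈ R, val x ∈ A) :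
    (∀ x ∈ R, ∀ y ∈ R, prj P x = prj P y) ∨ (∀ x ∈ R, ∀ y ∈ R, prj Pᶜ x = prj Pᶜ y) := by
  by_contra hcon
  push Not at hcon
  obtain ⟨⟨x, hx, y, hy, hxy⟩, x', hx', y', hy', hxy'⟩ := hcon
  have hval : ∀ u v : Fin m → Fin k, val (P.piecewise u v) = val (prj P u) + val (prj Pᶜ v) := by
    intro u v
    unfold val
    rw [← sum_add_distrib]
    refine sum_congr rfl fun i _ => ?_
    by_cases hi : i ∈ P <;> simp [prj, hi]
  have hpP : ∀ u v : Fin m → Fin k, prj P (P.piecewise u v) = prj P u := by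
    intro u v
    funext i
    by_cases hi : i ∈ P <;> simp [prj, hi]
  have hpC : ∀ u v : Fin m → Fin k, prj Pᶜ (P.piecewise u v) = prj Pᶜ v := by
    intro u v
    funext i
    by_cases hi : i ∈ P <;> simp [prj, hi]
  rcases hA _ (hRA _ (hR x hx x' hx')) _ (hRA _ (hR y hy y' hy')) _ (hRA _ (hR y hy x' hx')) _
    (hRA _ (hR x hx y' hy')) (by rw [hval, hval, hval, hval]; ring) with h | h
  · have h := val_inj h
    apply hxy
    rw [← hpP x x', h, hpP]
  · have h := val_inj h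
    apply hxy'
    rw [← hpC x x', h, hpC]

/-- One level: from a cover by rectangles to labelled parts. -/
theorem level {A : Set ℤ} (hA : IsSidon A) {K : Set (Finset (Fin m))} {r : ℕ}
    (hc : RectCover K r {x : Fin m → Fin k | val x ∈ A}) :
    ∃ L S : Finset (Finset (Fin m) × (Fin m → Fin k)), L.card + S.card ≤ r ∧
      (∀ e ∈ L, e.1 ∈ K) ∧ (∀ e ∈ S, e.1 ∈ K) ∧
      ∀ x : Fin m → Fin k, val x ∈ A → (∃ P, (P, prj P x) ∈ L) ∨ ∃ P, (P, prj Pᶜ x) ∈ S := by
  classical
  obtain ⟨F, hF1, hF2⟩ := hc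
  choose Q hQK hQR using hF1
  have hsub : ∀ l, ∀ x ∈ F l, val x ∈ A := by
    intro l x hx
    have : x ∈ {x : Fin m → Fin k | val x ∈ A} := by
      rw [hF2]
      exact Set.mem_iUnion.2 ⟨l, hx⟩
    exact this
  -- a chosen member of each rectangle
  have hch : ∀ l, ∃ u : Fin m → Fin k, (F l).Nonempty → u ∈ F l := by
    intro l
    by_cases h : (F l).Nonempty
    · obtain ⟨u, hu⟩ := h
      exact ⟨u, fun _ => hu⟩
    · exact ⟨0, fun h' => absurd h' h⟩
  choose u hu using hch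
  set T : Finset (Fin r) := univ.filter fun l => ∀ x ∈ F l, ∀ y ∈ F l, prj (Q l) x = prj (Q l) y
    with hT
  refine ⟨T.image fun l => (Q l, prj (Q l) (u l)), Tᶜ.image fun l => (Q l, prj (Q l)ᶜ (u l)),
    ?_, ?_, ?_, ?_⟩
  · calc _ ≤ T.card + Tᶜ.card := Nat.add_le_add card_image_le card_image_le
      _ = r := by rw [card_add_card_compl, Fintype.card_fin]
  · intro e he
    obtain ⟨l, -, rfl⟩ := mem_image.1 he
    exact hQK l
  · intro e he
    obtain ⟨l, -, rfl⟩ := mem_image.1 he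
    exact hQK l
  · intro x hx
    have hx' : x ∈ ⋃ i, F i := by
      rw [← hF2]
      exact hx
    obtain ⟨l, hl⟩ := Set.mem_iUnion.1 hx'
    have hul := hu l ⟨x, hl⟩
    by_cases hlT : l ∈ T
    · left
      refine ⟨Q l, mem_image.2 ⟨l, hlT, ?_⟩⟩
      rw [(mem_filter.1 hlT).2 x hl (u l) hul]
    · right
      refine ⟨Q l, mem_image.2 ⟨l, mem_compl.2 hlT, ?_⟩⟩
      rcases rect_const hA (hQR l) (hsub l) with h | h
      · exact absurd (mem_filter.2 ⟨mem_univ _, h⟩) hlT
      · rw [h x hl (u l) hul]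

/-- The count at two consecutive levels. -/
theorem card_two_levels {A : Set ℤ} {V : Finset (Fin m → Fin k)} (hV : ∀ x ∈ V, val x ∈ A)
    {K K' : Finset (Finset (Fin m))} (L S : Finset (Finset (Fin m) × (Fin m → Fin k)))
    (hL : ∀ e ∈ L, e.1 ∈ K) (hS : ∀ e ∈ S, e.1 ∈ K') {t b κ : ℕ} (hK : K.card ≤ κ)
    (hK' : K'.card ≤ κ) (ht : Good A L.card S.card t)
    (hb : ∀ P ∈ K, ∀ P' ∈ K', (P' \ P).card ≤ b) :
    (V.filter fun a => ∃ P P', (P, prj P a) ∈ L ∧ (P', prj P'ᶜ a) ∈ S).card ≤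
      κ * (k ^ b * (t * (L.card + S.card))) := by
  classical
  set Lp : Finset (Fin m) → Finset (Fin m → Fin k) := fun P =>
    (L.filter fun e => e.1 = P).image Prod.snd with hLp
  set Sp : Finset (Fin m) → Finset (Fin m → Fin k) := fun P =>
    (S.filter fun e => e.1 = P).image Prod.snd with hSp
  have hLc : ∑ P ∈ K, (Lp P).card ≤ L.card := by
    calc _ ≤ ∑ P ∈ K, (L.filter fun e => e.1 = P).card := sum_le_sum fun P _ => card_image_le
      _ = L.card := (card_eq_sum_card_fiberwise fun e he => hL e he).symm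
  have hSc : ∑ P ∈ K', (Sp P).card ≤ S.card := by
    calc _ ≤ ∑ P ∈ K', (S.filter fun e => e.1 = P).card := sum_le_sum fun P _ => card_image_le
      _ = S.card := (card_eq_sum_card_fiberwise fun e he => hS e he).symm
  have hLle : ∀ P, (Lp P).card ≤ L.card := fun P =>
    card_image_le.trans (card_le_card (filter_subset _ _))
  have hSle : ∀ P, (Sp P).card ≤ S.card := fun P =>
    card_image_le.trans (card_le_card (filter_subset _ _))
  have hgood : ∀ P P', Good A (Lp P).card (Sp P').card t := by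
    intro P P'
    rcases ht with ⟨h, h'⟩ | ⟨h, h'⟩
    · exact Or.inl ⟨h, lt_of_le_of_lt (hLle P) h'⟩
    · exact Or.inr ⟨h, lt_of_le_of_lt (hSle P') h'⟩
  have hcov : (V.filter fun a => ∃ P P', (P, prj P a) ∈ L ∧ (P', prj P'ᶜ a) ∈ S) ⊆
      (K ×ˢ K').biUnion fun e => V.filter fun a => prj e.1 a ∈ Lp e.1 ∧ prj e.2ᶜ a ∈ Sp e.2 := by
    intro a ha
    obtain ⟨ha, P, P', h1, h2⟩ := mem_filter.1 ha
    rw [mem_biUnion]
    refine ⟨(P, P'), mem_product.2 ⟨hL _ h1, hS _ h2⟩, mem_filter.2 ⟨ha, ?_, ?_⟩⟩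
    · exact mem_image.2 ⟨_, mem_filter.2 ⟨h1, rfl⟩, rfl⟩
    · exact mem_image.2 ⟨_, mem_filter.2 ⟨h2, rfl⟩, rfl⟩
  calc _ ≤ _ := card_le_card hcov
    _ ≤ ∑ e ∈ K ×ˢ K', (V.filter fun a => prj e.1 a ∈ Lp e.1 ∧ prj e.2ᶜ a ∈ Sp e.2).card :=
        card_biUnion_le
    _ ≤ ∑ e ∈ K ×ˢ K', k ^ b * (t * ((Lp e.1).card + (Sp e.2).card)) := by
        refine sum_le_sum fun e he => ?_
        obtain ⟨h1, h2⟩ := mem_product.1 he
        exact card_pair_le hV e.1 e.2 _ _ (hgood _ _) (hb _ h1 _ h2)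
    _ = k ^ b * (t * (K'.card * ∑ P ∈ K, (Lp P).card + K.card * ∑ P ∈ K', (Sp P).card)) := by
        rw [← mul_sum, ← mul_sum, sum_add_distrib, sum_product, sum_product]
        simp only [sum_const, smul_eq_mul]
        rw [← mul_sum]
    _ ≤ k ^ b * (t * (κ * L.card + κ * S.card)) := by
        refine Nat.mul_le_mul_left _ (Nat.mul_le_mul_left _ (Nat.add_le_add ?_ ?_))
        · exact Nat.mul_le_mul hK' hLc
        · exact Nat.mul_le_mul hK hSc
    _ = κ * (k ^ b * (t * (L.card + S.card))) := by ring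

end Pool.Agent.W_a18a27_LC

namespace Pool.Agent.W_a18a27_h10

open Finset hiding val
open Pool.Agent.W_a18a27_LC

/-- **The count.** Families `K 0 = {∅}, K 1, …, K d, K (d + 1) = {all positions}` of cuts, at most
`κ` in each family, with gaps at most `b`. If at the levels `1, …, d` the digit strings of the members
of `A` are a union of `r` rectangles, then `A` has at most `κ k ^ b t (d r + 2)` members in
`[0, k ^ m)`, if `A` is a Sidon set and `r < (t + 1) t`, or `A` is a `B₃` set and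
`r < (t + 1) t ^ 2`. -/
theorem card_le_gen {A : Set ℤ} {k m d r b t κ : ℕ} (hk : 1 ≤ k) (K : ℕ → Set (Finset (Fin m)))
    (h0 : K 0 = {∅}) (h1 : K (d + 1) = {Finset.univ}) (hK : ∀ i ≤ d + 1, (K i).ncard ≤ κ)
    (hb : ∀ i ≤ d, ∀ P ∈ K i, ∀ P' ∈ K (i + 1), (P' \ P).card ≤ b)
    (hc : ∀ i, 1 ≤ i → i ≤ d → RectCover (K i) r {x : Fin m → Fin k | val x ∈ A})
    (ht : (IsSidon A ∧ r < (t + 1) * t) ∨ (IsB3Z A ∧ r < (t + 1) * t * t)) :
    {x : Fin m → Fin k | val x ∈ A}.ncard ≤ κ * (k ^ b * (t * (d * r + 2))) := by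
  classical
  have : NeZero k := ⟨by omega⟩
  have hA : IsSidon A := by
    rcases ht with ⟨h, -⟩ | ⟨h, -⟩
    · exact h
    · exact h.isSidon
  have ht1 : 1 ≤ t := by
    rcases Nat.eq_zero_or_pos t with h | h
    · subst h
      rcases ht with ⟨-, h⟩ | ⟨-, h⟩ <;> simp at h
    · exact h
  set V : Finset (Fin m → Fin k) := univ.filter fun x => val x ∈ A with hVdef
  have hV : ∀ x ∈ V, val x ∈ A := fun x hx => (mem_filter.1 hx).2
  have hcard : {x : Fin m → Fin k | val x ∈ A}.ncard = V.card := by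
    rw [← Set.ncard_coe_finset, hVdef]
    congr 1
    ext x
    simp
  -- the labelled parts at each level
  have hlev : ∀ i, i ≤ d + 1 → ∃ L S : Finset (Finset (Fin m) × (Fin m → Fin k)),
      (1 ≤ i → i ≤ d → L.card + S.card ≤ r) ∧ (i = 0 → L.card ≤ 1 ∧ S = ∅) ∧
      (i = d + 1 → S.card ≤ 1 ∧ L = ∅) ∧
      (∀ e ∈ L, e.1 ∈ K i) ∧ (∀ e ∈ S, e.1 ∈ K i) ∧
      ∀ x ∈ V, (∃ P, (P, prj P x) ∈ L) ∨ ∃ P, (P, prj Pᶜ x) ∈ S := by
    intro i hi
    by_cases hi0 : i = 0
    · refine ⟨{(∅, 0)}, ∅, fun h => absurd h (by omega), fun _ => ⟨by simp, rfl⟩,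
        fun h => absurd h (by omega), ?_, by simp, ?_⟩
      · intro e he
        rw [mem_singleton.1 he, hi0, h0]
        rfl
      · intro x _
        left
        exact ⟨∅, by rw [prj_empty]; exact mem_singleton_self _⟩
    · by_cases hid : i ≤ d
      · obtain ⟨L, S, e1, e2, e3, e4⟩ := level hA (hc i (by omega) hid)
        exact ⟨L, S, fun _ _ => e1, fun h => absurd h hi0, fun h => absurd h (by omega), e2, e3,
          fun x hx => e4 x (hV x hx)⟩
      · have hid' : i = d + 1 := by omega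
        refine ⟨∅, {(univ, 0)}, fun _ h => absurd h hid, fun h => absurd h hi0,
          fun _ => ⟨by simp, rfl⟩, by simp, ?_, ?_⟩
        · intro e he
          rw [mem_singleton.1 he, hid', h1]
          rfl
        · intro x _
          right
          refine ⟨univ, ?_⟩
          rw [compl_univ, prj_empty]
          exact mem_singleton_self _
  choose! L S hr hz hl hLK hSK hcov using hlev
  have hcovV : V ⊆ (range (d + 1)).biUnion fun i =>
      V.filter fun a => ∃ P P', (P, prj P a) ∈ L i ∧ (P', prj P'ᶜ a) ∈ S (i + 1) := by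
    intro a ha
    by_contra hcon
    rw [mem_biUnion] at hcon
    push Not at hcon
    have hstep : ∀ i, i ≤ d + 1 → ∃ P, (P, prj P a) ∈ L i := by
      intro i
      induction i with
      | zero =>
        intro _
        rcases hcov 0 (by omega) a ha with h | ⟨P, h⟩
        · exact h
        · rw [(hz 0 (by omega) rfl).2] at h
          exact absurd h (notMem_empty _)
      | succ i ih =>
        intro hi
        obtain ⟨P, hP⟩ := ih (by omega)
        rcases hcov (i + 1) hi a ha with h | ⟨P', h⟩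
        · exact h
        · exact absurd (mem_filter.2 ⟨ha, P, P', hP, h⟩) (hcon i (mem_range.2 (by omega)))
    obtain ⟨P, hP⟩ := hstep (d + 1) le_rfl
    rw [(hl (d + 1) le_rfl rfl).2] at hP
    exact absurd hP (notMem_empty _)
  have hgood : ∀ i ≤ d, Good A (L i).card (S (i + 1)).card t := by
    intro i hi
    rcases ht with ⟨h, h'⟩ | ⟨h, h'⟩
    · refine Or.inl ⟨h, ?_⟩
      by_cases hi0 : i = 0
      · have := (hz i (by omega) hi0).1
        nlinarith
      · have := hr i (by omega) (by omega) hi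
        omega
    · refine Or.inr ⟨h, ?_⟩
      by_cases hid : i + 1 ≤ d
      · have := hr (i + 1) (by omega) (by omega) hid
        omega
      · have := (hl (i + 1) (by omega) (by omega)).1
        have h2 : 2 ≤ (t + 1) * t * t := by nlinarith [Nat.mul_le_mul ht1 ht1]
        omega
  have hsum : ∑ i ∈ range (d + 1), ((L i).card + (S (i + 1)).card) ≤ d * r + 2 := by
    rw [sum_add_distrib, sum_range_succ' (fun i => (L i).card),
      sum_range_succ (fun i => (S (i + 1)).card)]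
    have e0 : (L 0).card ≤ 1 := (hz 0 (by omega) rfl).1
    have e1 : (S (d + 1)).card ≤ 1 := (hl (d + 1) le_rfl rfl).1
    have e2 : ∑ i ∈ range d, (L (i + 1)).card + ∑ i ∈ range d, (S (i + 1)).card ≤ d * r := by
      rw [← sum_add_distrib]
      calc _ ≤ ∑ _i ∈ range d, r := by
            refine sum_le_sum fun i hi => ?_
            rw [mem_range] at hi
            exact hr (i + 1) (by omega) (by omega) (by omega)
        _ = d * r := by rw [sum_const, card_range, smul_eq_mul]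
    omega
  have hfin : ∀ i, (K i).Finite := fun i => Set.toFinite _
  rw [hcard]
  calc V.card ≤ _ := card_le_card hcovV
    _ ≤ ∑ i ∈ range (d + 1), (V.filter fun a =>
        ∃ P P', (P, prj P a) ∈ L i ∧ (P', prj P'ᶜ a) ∈ S (i + 1)).card := card_biUnion_le
    _ ≤ ∑ i ∈ range (d + 1), κ * (k ^ b * (t * ((L i).card + (S (i + 1)).card))) := by
        refine sum_le_sum fun i hi => ?_
        rw [mem_range] at hi
        refine card_two_levels hV (K := (hfin i).toFinset) (K' := (hfin (i + 1)).toFinset)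
          (L i) (S (i + 1)) ?_ ?_ ?_ ?_ (hgood i (by omega)) ?_
        · intro e he
          exact (Set.Finite.mem_toFinset _).2 (hLK i (by omega) e he)
        · intro e he
          exact (Set.Finite.mem_toFinset _).2 (hSK (i + 1) (by omega) e he)
        · rw [← Set.ncard_eq_toFinset_card (K i) (hfin i)]
          exact hK i (by omega)
        · rw [← Set.ncard_eq_toFinset_card (K (i + 1)) (hfin (i + 1))]
          exact hK (i + 1) (by omega)
        · intro P hP P' hP'
          exact hb i (by omega) P ((Set.Finite.mem_toFinset _).1 hP) P'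
            ((Set.Finite.mem_toFinset _).1 hP')
    _ = κ * (k ^ b * (t * ∑ i ∈ range (d + 1), ((L i).card + (S (i + 1)).card))) := by
        rw [← mul_sum, ← mul_sum, ← mul_sum]
    _ ≤ κ * (k ^ b * (t * (d * r + 2))) :=
        Nat.mul_le_mul_left _ (Nat.mul_le_mul_left _ (Nat.mul_le_mul_left _ hsum))

/-- The count for `B₃` sets. -/
theorem card_le_B3 {A : Set ℤ} (hA : IsB3Z A) {k m d r b t κ : ℕ} (hk : 1 ≤ k)
    (K : ℕ → Set (Finset (Fin m))) (h0 : K 0 = {∅}) (h1 : K (d + 1) = {Finset.univ})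
    (hK : ∀ i, (K i).ncard ≤ κ)
    (hb : ∀ i ≤ d, ∀ P ∈ K i, ∀ P' ∈ K (i + 1), (P' \ P).card ≤ b)
    (hc : ∀ i, 1 ≤ i → i ≤ d → RectCover (K i) r {x : Fin m → Fin k | val x ∈ A})
    (ht : r < (t + 1) * t * t) :
    {x : Fin m → Fin k | val x ∈ A}.ncard ≤ κ * (t * k ^ b * (d * r + 2)) :=
  (card_le_gen hk K h0 h1 (fun i _ => hK i) hb hc (Or.inr ⟨hA, ht⟩)).trans (le_of_eq (by ring))

/-- The count for Sidon sets. -/
theorem card_le_sidon {A : Set ℤ} (hA : IsSidon A) {k m d r b t κ : ℕ} (hk : 1 ≤ k)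
    (K : ℕ → Set (Finset (Fin m))) (h0 : K 0 = {∅}) (h1 : K (d + 1) = {Finset.univ})
    (hK : ∀ i, (K i).ncard ≤ κ)
    (hb : ∀ i ≤ d, ∀ P ∈ K i, ∀ P' ∈ K (i + 1), (P' \ P).card ≤ b)
    (hc : ∀ i, 1 ≤ i → i ≤ d → RectCover (K i) r {x : Fin m → Fin k | val x ∈ A})
    (ht : r < (t + 1) * t) :
    {x : Fin m → Fin k | val x ∈ A}.ncard ≤ κ * (t * k ^ b * (d * r + 2)) :=
  (card_le_gen hk K h0 h1 (fun i _ => hK i) hb hc (Or.inl ⟨hA, ht⟩)).trans (le_of_eq (by ring))

end Pool.Agent.W_a18a27_h10
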