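import Pool.Agent.W_a18a27_h10.Seq
import Pool.Agent.W_a18a27_h10.Few92

set_option autoImplicit false

/-!
`B₃` sequences and `B₃` sets; the criterion.
-/

namespace Pool.Agent.W_a18a27_h10

theorem exists_sorted (a : ℕ → ℤ) (i j l : ℕ) : ∃ p q r : ℕ, p ≤ q ∧ q ≤ r ∧
    a p + a q + a r = a i + a j + a l ∧ (i = p ∨ i = q ∨ i = r) ∧
    (p = i ∨ p = j ∨ p = l) ∧ (q = i ∨ q = j ∨ q = l) ∧ (r = i ∨ r = j ∨ r = l) := by
  rcases le_total i j with h1 | h1 <;> rcases le_total j l with h2 | h2 <;>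
    rcases le_total i l with h3 | h3
  · exact ⟨i, j, l, h1, h2, rfl, by simp, by simp, by simp, by simp⟩
  · exact ⟨i, j, l, h1, h2, rfl, by simp, by simp, by simp, by simp⟩
  · exact ⟨i, l, j, h3, h2, by ring, by simp, by simp, by simp, by simp⟩
  · exact ⟨l, i, j, h3, h1, by ring, by simp, by simp, by simp, by simp⟩
  · exact ⟨j, i, l, h1, h3, by ring, by simp, by simp, by simp, by simp⟩
  · exact ⟨j, l, i, h2, h3, by ring, by simp, by simp, by simp, by simp⟩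
  · exact ⟨l, j, i, h2, h1, by ring, by simp, by simp, by simp, by simp⟩
  · exact ⟨l, j, i, h2, h1, by ring, by simp, by simp, by simp, by simp⟩

theorem isB3Z_range {a : ℕ → ℤ}
    (hB : ∀ i j l i' j' l' : ℕ, i ≤ j → j ≤ l → i' ≤ j' → j' ≤ l' →
        a i + a j + a l = a i' + a j' + a l' → i = i' ∧ j = j' ∧ l = l') :
    IsB3Z (Set.range a) := by
  rintro _ ⟨i, rfl⟩ _ ⟨j, rfl⟩ _ ⟨l, rfl⟩ _ ⟨i', rfl⟩ _ ⟨j', rfl⟩ _ ⟨l', rfl⟩ h
  obtain ⟨p, q, r, h1, h2, h3, h4, -, -, -⟩ := exists_sorted a i j l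
  obtain ⟨p', q', r', h1', h2', h3', -, h5', h6', h7'⟩ := exists_sorted a i' j' l'
  obtain ⟨e1, e2, e3⟩ := hB p q r p' q' r' h1 h2 h1' h2' (by rw [h3, h3', h])
  have key : i = i' ∨ i = j' ∨ i = l' := by
    rcases h4 with e | e | e
    · rw [e, e1]; exact h5'
    · rw [e, e2]; exact h6'
    · rw [e, e3]; exact h7'
  rcases key with e | e | e
  · exact Or.inl (by rw [e])
  · exact Or.inr (Or.inl (by rw [e]))
  · exact Or.inr (Or.inr (by rw [e]))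

/-- The general criterion. -/
theorem criterion3 {a : ℕ → ℤ} (ha : StrictMono a)
    (hB : ∀ i j l i' j' l' : ℕ, i ≤ j → j ≤ l → i' ≤ j' → j' ≤ l' →
        a i + a j + a l = a i' + a j' + a l' → i = i' ∧ j = j' ∧ l = l')
    (h : ∀ N : ℕ, ∃ (k m d r b t κ : ℕ) (K : ℕ → Set (Finset (Fin m))) (A' : Set ℤ), 1 ≤ k ∧
      K 0 = {∅} ∧ K (d + 1) = {Finset.univ} ∧ (∀ i ≤ d + 1, (K i).ncard ≤ κ) ∧
      (∀ i ≤ d, ∀ P ∈ K i, ∀ P' ∈ K (i + 1), (P' \ P).card ≤ b) ∧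
      AlmostAll (Set.range a) A' k m N ∧
      (∀ i, 1 ≤ i → i ≤ d → RectCover (K i) r {x : Fin m → Fin k | val x ∈ A'}) ∧
      r < (t + 1) * t * t ∧ N * (κ * t * k ^ b * (d * r + 2)) ^ 3 ≤ k ^ m) :
    ∀ C : ℝ, ∀ N : ℕ, ∃ n : ℕ, N ≤ n ∧ C * ((n : ℝ) + 1) ^ 3 < (a n : ℝ) := by
  refine limsup_of_approx ha fun N => ?_
  obtain ⟨k, m, d, r, b, t, κ, K, A', hk, h0, h1, hK, hb, hA', hc, ht, hN⟩ := h N
  refine ⟨k, m, κ * t * k ^ b * (d * r + 2), A', ?_, hA', ?_, hN⟩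
  · have hkap : 1 ≤ κ := by
      have := hK 0 (by omega)
      rwa [h0, Set.ncard_singleton] at this
    have ht1 : 1 ≤ t := by
      rcases Nat.eq_zero_or_pos t with e | e
      · subst e; omega
      · exact e
    exact Nat.mul_pos (Nat.mul_pos (Nat.mul_pos hkap ht1) (Nat.pow_pos hk)) (by omega)
  · exact (card_le_gen hk K h0 h1 hK hb hc
      (Or.inr ⟨(isB3Z_range hB).mono hA'.1, ht⟩)).trans (le_of_eq (by ring))

/-- The choice of `t`. -/
theorem exists_t {r : ℕ} (hr : 1 ≤ r) : ∃ t : ℕ, 1 ≤ t ∧ r < (t + 1) * t * t ∧ t ^ 3 ≤ 4 * r := by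
  classical
  have hex : ∃ t : ℕ, r < (t + 1) * t * t := by
    refine ⟨r, ?_⟩
    calc r < r + 1 := Nat.lt_succ_self r
      _ = (r + 1) * 1 * 1 := by ring
      _ ≤ (r + 1) * r * r := Nat.mul_le_mul (Nat.mul_le_mul_left _ hr) hr
  let t := Nat.find hex
  have h1 : r < (t + 1) * t * t := Nat.find_spec hex
  have ht1 : 1 ≤ t := by
    rcases Nat.eq_zero_or_pos t with e | e
    · rw [e] at h1; omega
    · exact e
  refine ⟨t, ht1, h1, ?_⟩
  rcases Nat.lt_or_ge t 2 with h2 | h2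
  · have : t = 1 := by omega
    rw [this]; omega
  · have h3 : ¬ r < (t - 1 + 1) * (t - 1) * (t - 1) := Nat.find_min hex (by omega)
    obtain ⟨u, hu⟩ : ∃ u, t = u + 1 := ⟨t - 1, by omega⟩
    rw [hu, Nat.add_sub_cancel, not_lt] at h3
    rw [hu]
    have hu1 : 1 ≤ u := by omega
    nlinarith [mul_le_mul hu1 hu1 (Nat.zero_le _) (Nat.zero_le _)]

end Pool.Agent.W_a18a27_h10
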