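import Pool.Agent.W_a18a27_h10.Bound
import Pool.Agent.W_a18a27_h10.Seq3

set_option autoImplicit false

/-!
The number of members of a `B₃` set which is recognized by a one-tape machine.
-/

namespace Pool.Agent.W_a18a27_h10

variable {k m : ℕ} {Q Γ : Type}

theorem ncard_window (M : Machine k m Q Γ) (w : ℕ) (o : ℤ) : (M.window w o).ncard ≤ w := by
  have h : M.window w o = (fun u : Fin w => M.left (o + u)) '' Set.univ := by
    ext P
    constructor
    · rintro ⟨u, hu⟩
      exact ⟨u, trivial, hu.symm⟩
    · rintro ⟨u, -, hu⟩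
      exact ⟨u, hu.symm⟩
  rw [h]
  refine (Set.ncard_image_le Set.finite_univ).trans ?_
  rw [Set.ncard_univ, Nat.card_eq_fintype_card, Fintype.card_fin]

/-- **Sidon and `B₃` sets which are recognized quickly by one-tape machines are small.** -/
theorem machine_bound3 [Fintype Q] {A : Set ℤ} (hk : 1 ≤ k)
    {M : Machine k m Q Γ} {T : ℕ} (hM : M.Recognizes T A) {w d t : ℕ} (hw : 1 ≤ w)
    (hmd : m ≤ (d + 1) * w)
    (hA : (IsSidon A ∧ w * (T * Fintype.card Q + 1) ^ (T / w) < (t + 1) * t) ∨
      (IsB3Z A ∧ w * (T * Fintype.card Q + 1) ^ (T / w) < (t + 1) * t * t)) :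
    {x : Fin m → Fin k | val x ∈ A}.ncard ≤
      w * (t * k ^ (2 * w) * (d * (w * (T * Fintype.card Q + 1) ^ (T / w)) + 2)) := by
  classical
  have hl0 : M.left 0 = ∅ := by
    unfold Machine.left
    rw [Finset.filter_eq_empty_iff]
    intro j _
    omega
  have hlm : M.left m = Finset.univ := by
    unfold Machine.left
    rw [Finset.filter_eq_self]
    intro j _
    have := (M.lay.symm j).2
    exact_mod_cast this
  refine (card_le_gen hk (d := d) (b := 2 * w) (t := t) (κ := w)
    (r := w * (T * Fintype.card Q + 1) ^ (T / w))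
    (fun i => if i = 0 then {∅} else if i ≤ d then M.window w ((i - 1 : ℕ) * w + 1) else {Finset.univ})
    (by simp) (by simp) ?_ ?_ ?_ hA).trans (le_of_eq (by ring))
  · intro i _
    show Set.ncard (if i = 0 then ({∅} : Set (Finset (Fin m))) else if i ≤ d then
        M.window w ((i - 1 : ℕ) * w + 1) else {Finset.univ}) ≤ w
    split_ifs
    · rw [Set.ncard_singleton]; exact hw
    · exact ncard_window M w _
    · rw [Set.ncard_singleton]; exact hw
  · intro i hi P hP P' hP'
    -- each member of the families is of the form `left p`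
    have h1 : ∃ p : ℤ, P = M.left p ∧ ((i : ℤ) - 1) * w ≤ p ∧ (i = 0 → p = 0) := by
      change P ∈ (if i = 0 then ({∅} : Set (Finset (Fin m))) else if i ≤ d then
        M.window w ((i - 1 : ℕ) * w + 1) else {Finset.univ}) at hP
      by_cases h0 : i = 0
      · rw [if_pos h0] at hP
        refine ⟨0, by rw [hl0]; exact hP, ?_, fun _ => rfl⟩
        rw [h0]
        push_cast
        have : (0 : ℤ) ≤ w := by positivity
        linarith
      · rw [if_neg h0, if_pos hi] at hP
        obtain ⟨u, hu⟩ := hP
        refine ⟨_, hu, ?_, fun e => absurd e h0⟩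
        have e1 : ((i - 1 : ℕ) : ℤ) = (i : ℤ) - 1 := by omega
        rw [e1]
        have : (0 : ℤ) ≤ ((u : ℕ) : ℤ) := by positivity
        linarith
    have h2 : ∃ p' : ℤ, P' = M.left p' ∧ p' ≤ ((i : ℤ) + 1) * w := by
      change P' ∈ (if i + 1 = 0 then ({∅} : Set (Finset (Fin m))) else if i + 1 ≤ d then
        M.window w ((i + 1 - 1 : ℕ) * w + 1) else {Finset.univ}) at hP'
      rw [if_neg (by omega)] at hP'
      by_cases h0 : i + 1 ≤ d
      · rw [if_pos h0] at hP'
        obtain ⟨u, hu⟩ := hP'
        refine ⟨_, hu, ?_⟩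
        have e1 : ((i + 1 - 1 : ℕ) : ℤ) = (i : ℤ) := by omega
        rw [e1]
        have : ((u : ℕ) : ℤ) + 1 ≤ w := by have := u.2; omega
        linarith
      · rw [if_neg h0] at hP'
        refine ⟨m, by rw [hlm]; exact hP', ?_⟩
        have : i = d := by omega
        rw [this]
        exact_mod_cast hmd
    obtain ⟨p, rfl, hp, hp0⟩ := h1
    obtain ⟨p', rfl, hp'⟩ := h2
    refine card_left_sdiff M ?_
    push_cast
    linarith
  · intro i h1 h2
    show RectCover (if i = 0 then ({∅} : Set (Finset (Fin m))) else if i ≤ d then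
        M.window w ((i - 1 : ℕ) * w + 1) else {Finset.univ}) _ _
    rw [if_neg (by omega), if_pos h2]
    exact cover hM hw _

end Pool.Agent.W_a18a27_h10
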