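import Mathlib

set_option autoImplicit false

/-!
Sidon sets of small nondeterministic cut complexity are small.
-/

namespace Pool.Agent.W_a18a27_h10

/-- The integer with the base `k` digits `x 0, x 1, …` (the least significant digit is `x 0`). -/
def val {k m : ℕ} (x : Fin m → Fin k) : ℤ := ∑ j, ((x j : ℕ) : ℤ) * (k : ℤ) ^ (j : ℕ)

/-- The set `R` of digit strings is a rectangle with respect to the set `P` of positions and its
complement: it is closed under combining the digits of one member at the positions in `P` with the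
digits of another member at the other positions. -/
def IsRect {k m : ℕ} (P : Finset (Fin m)) (R : Set (Fin m → Fin k)) : Prop :=
  ∀ x ∈ R, ∀ y ∈ R, P.piecewise x y ∈ R

/-- `S` is the union of `r` sets, each of which is a rectangle with respect to some member `P` of
the family `K` and its complement. -/
def RectCover {k m : ℕ} (K : Set (Finset (Fin m))) (r : ℕ) (S : Set (Fin m → Fin k)) : Prop :=
  ∃ F : Fin r → Set (Fin m → Fin k), (∀ i, ∃ P ∈ K, IsRect P (F i)) ∧ S = ⋃ i, F i

/-- Sidon sets of integers. -/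
def IsSidon (A : Set ℤ) : Prop :=
  ∀ a ∈ A, ∀ b ∈ A, ∀ c ∈ A, ∀ d ∈ A, a + b = c + d → a = c ∨ a = d

theorem val_eq {k m : ℕ} (x : Fin m → Fin k) : val x = ((finFunctionFinEquiv x : ℕ) : ℤ) := by
  rw [finFunctionFinEquiv_apply]
  simp [val]

theorem val_inj {k m : ℕ} {x y : Fin m → Fin k} (h : val x = val y) : x = y := by
  rw [val_eq, val_eq] at h
  exact finFunctionFinEquiv.injective (Fin.ext (by exact_mod_cast h))

theorem val_nonneg {k m : ℕ} (x : Fin m → Fin k) : 0 ≤ val x := by rw [val_eq]; positivity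

theorem val_lt {k m : ℕ} (x : Fin m → Fin k) : val x < (k : ℤ) ^ m := by
  rw [val_eq]
  exact_mod_cast (finFunctionFinEquiv x).2

theorem exists_val {k m : ℕ} {a : ℤ} (h0 : 0 ≤ a) (h1 : a < (k : ℤ) ^ m) :
    ∃ x : Fin m → Fin k, val x = a := by
  obtain ⟨n, rfl⟩ := Int.eq_ofNat_of_zero_le h0
  have h2 : n < k ^ m := by exact_mod_cast h1
  refine ⟨finFunctionFinEquiv.symm ⟨n, h2⟩, ?_⟩
  rw [val_eq, Equiv.apply_symm_apply]

theorem IsSidon.mono {A A' : Set ℤ} (hA : IsSidon A) (h : A' ⊆ A) : IsSidon A' :=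
  fun a ha b hb c hc d hd => hA a (h ha) b (h hb) c (h hc) d (h hd)

theorem ncard_Ico (A : Set ℤ) (k m : ℕ) :
    (A ∩ Set.Ico 0 ((k : ℤ) ^ m)).ncard = {x : Fin m → Fin k | val x ∈ A}.ncard := by
  have h : (fun x : Fin m → Fin k => val x) '' {x : Fin m → Fin k | val x ∈ A} =
      A ∩ Set.Ico 0 ((k : ℤ) ^ m) := by
    ext a
    constructor
    · rintro ⟨x, hx, rfl⟩
      exact ⟨hx, val_nonneg x, val_lt x⟩
    · rintro ⟨ha, h0, h1⟩
      obtain ⟨x, rfl⟩ := exists_val h0 h1
      exact ⟨x, ha, rfl⟩
  rw [← h]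
  exact Set.ncard_image_of_injective _ (fun x y hxy => val_inj hxy)

theorem val_mix {k m : ℕ} (P : Finset (Fin m)) (x y : Fin m → Fin k) :
    val (P.piecewise x y) + val (P.piecewise y x) = val x + val y := by
  unfold val
  rw [← Finset.sum_add_distrib, ← Finset.sum_add_distrib]
  refine Finset.sum_congr rfl fun j _ => ?_
  by_cases hj : j ∈ P
  · simp [hj]
  · simp [hj, add_comm]

/-- Two elements of a rectangle inside the set of strings of a Sidon set agree on `P` or off
`P`. -/
theorem agree {A : Set ℤ} (hA : IsSidon A) {k m : ℕ} {P : Finset (Fin m)}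
    {R : Set (Fin m → Fin k)} (hR : IsRect P R) (hRA : ∀ x ∈ R, val x ∈ A)
    {x y : Fin m → Fin k} (hx : x ∈ R) (hy : y ∈ R) :
    (∀ j ∈ P, x j = y j) ∨ (∀ j ∉ P, x j = y j) := by
  have h := hA _ (hRA _ (hR x hx y hy)) _ (hRA _ (hR y hy x hx)) _ (hRA x hx) _ (hRA y hy)
    (val_mix P x y)
  rcases h with h | h
  · right
    intro j hj
    have := congrFun (val_inj h) j
    simpa [hj] using this.symm
  · left
    intro j hj
    have := congrFun (val_inj h) j
    simpa [hj] using this

/-- The number of strings which agree with `x₀` outside of `Q`. -/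
theorem card_agree {k m : ℕ} (x₀ : Fin m → Fin k) (Q : Finset (Fin m)) :
    (Finset.univ.filter fun y : Fin m → Fin k => ∀ j ∉ Q, y j = x₀ j).card ≤ k ^ Q.card := by
  classical
  have h1 : (Finset.univ : Finset (Q → Fin k)).card = k ^ Q.card := by
    simp
  rw [← h1]
  refine Finset.card_le_card_of_injOn (fun y j => y j) (fun _ _ => Finset.mem_coe.2 (Finset.mem_univ _)) ?_
  intro y hy z hz hyz
  have hy := (Finset.mem_filter.1 (Finset.mem_coe.1 hy)).2
  have hz := (Finset.mem_filter.1 (Finset.mem_coe.1 hz)).2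
  funext j
  by_cases hj : j ∈ Q
  · exact congrFun hyz ⟨j, hj⟩
  · rw [hy j hj, hz j hj]

/-- **Sidon sets with small covers by rectangles are small.** -/
theorem card_le {A : Set ℤ} (hA : IsSidon A) {k m d r b : ℕ} (hk : 1 ≤ k)
    (K : ℕ → Set (Finset (Fin m))) (h0 : K 0 = {∅}) (h1 : K (d + 1) = {Finset.univ})
    (hb : ∀ i ≤ d, ∀ P ∈ K i, ∀ P' ∈ K (i + 1), (P' \ P).card ≤ b)
    (hc : ∀ i, 1 ≤ i → i ≤ d → RectCover (K i) r {x : Fin m → Fin k | val x ∈ A}) :
    {x : Fin m → Fin k | val x ∈ A}.ncard ≤ (d + 1) * r ^ d * k ^ b := by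
  classical
  have hc' : ∀ i : Fin d, RectCover (K (i + 1)) r {x : Fin m → Fin k | val x ∈ A} :=
    fun i => hc (i + 1) (by omega) (by omega)
  choose F hF1 hF2 using hc'
  choose Q hQ1 hQ2 using hF1
  have hlab : ∀ x : {x : Fin m → Fin k // val x ∈ A}, ∀ i : Fin d, ∃ l : Fin r, x.1 ∈ F i l := by
    intro x i
    have : x.1 ∈ {x : Fin m → Fin k | val x ∈ A} := x.2
    rw [hF2 i] at this
    exact Set.mem_iUnion.1 this
  choose L hL using hlab
  have hsub : ∀ i l, ∀ x ∈ F i l, val x ∈ A := by
    intro i l x hx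
    have : x ∈ {x : Fin m → Fin k | val x ∈ A} := by
      rw [hF2 i]; exact Set.mem_iUnion.2 ⟨l, hx⟩
    exact this
  have hfib : ∀ ℓ : Fin d → Fin r,
      (Finset.univ.filter fun x : {x : Fin m → Fin k // val x ∈ A} => L x = ℓ).card ≤
        (d + 1) * k ^ b := by
    intro ℓ
    rcases (Finset.univ.filter fun x : {x : Fin m → Fin k // val x ∈ A} => L x = ℓ).eq_empty_or_nonempty
      with he | ⟨x₀, hx₀⟩
    · rw [he]; simp
    · have hx₀' : L x₀ = ℓ := (Finset.mem_filter.1 hx₀).2
      -- the cuts of this fibre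
      obtain ⟨P, hP0, hP1, hPb, hPr⟩ : ∃ P : ℕ → Finset (Fin m), P 0 = ∅ ∧
          P (d + 1) = Finset.univ ∧ (∀ i ≤ d, (P (i + 1) \ P i).card ≤ b) ∧
          ∀ i : Fin d, IsRect (P (i + 1)) (F i (ℓ i)) := by
        refine ⟨fun i => if h : 1 ≤ i ∧ i ≤ d then
          Q ⟨i - 1, by omega⟩ (ℓ ⟨i - 1, by omega⟩) else if i = 0 then ∅ else Finset.univ,
          by simp, by simp, ?_, ?_⟩
        · have hm : ∀ i ≤ d + 1, (if h : 1 ≤ i ∧ i ≤ d then
              Q ⟨i - 1, by omega⟩ (ℓ ⟨i - 1, by omega⟩) else if i = 0 then ∅ else Finset.univ) ∈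
              K i := by
            intro i hi
            split_ifs with h h'
            · have := hQ1 ⟨i - 1, by omega⟩ (ℓ ⟨i - 1, by omega⟩)
              simp only at this
              rwa [show i - 1 + 1 = i by omega] at this
            · rw [h', h0]; rfl
            · rw [show i = d + 1 by omega, h1]; rfl
          intro i hi
          exact hb i hi _ (hm i (by omega)) _ (hm (i + 1) (by omega))
        · intro i
          have h := hQ2 i (ℓ i)
          have h' : 1 ≤ (i : ℕ) + 1 ∧ (i : ℕ) + 1 ≤ d := ⟨by omega, by omega⟩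
          simp only [dif_pos h']
          exact h
      have key : ∀ x ∈ (Finset.univ.filter fun x : {x : Fin m → Fin k // val x ∈ A} => L x = ℓ),
          x.1 ∈ (Finset.range (d + 1)).biUnion fun i =>
            Finset.univ.filter fun y : Fin m → Fin k => ∀ j ∉ P (i + 1) \ P i, y j = x₀.1 j := by
        intro x hx
        have hx' : L x = ℓ := (Finset.mem_filter.1 hx).2
        have hag : ∀ i, 1 ≤ i → i ≤ d →
            (∀ j ∈ P i, x.1 j = x₀.1 j) ∨ (∀ j ∉ P i, x.1 j = x₀.1 j) := by
          intro i hi1 hi2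
          obtain ⟨i, rfl⟩ : ∃ i', i = i' + 1 := ⟨i - 1, by omega⟩
          have e1 := hL x ⟨i, by omega⟩
          have e2 := hL x₀ ⟨i, by omega⟩
          rw [hx'] at e1
          rw [hx₀'] at e2
          exact agree hA (hPr ⟨i, by omega⟩) (hsub ⟨i, by omega⟩ _) e1 e2
        -- the largest index at which they agree
        let g := Nat.findGreatest (fun i => ∀ j ∈ P i, x.1 j = x₀.1 j) d
        have hg : ∀ j ∈ P g, x.1 j = x₀.1 j :=
          Nat.findGreatest_spec (P := fun i => ∀ j ∈ P i, x.1 j = x₀.1 j) (Nat.zero_le d)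
            (by simp [hP0])
        have hgd : g ≤ d := Nat.findGreatest_le d
        simp only [Finset.mem_biUnion, Finset.mem_range, Finset.mem_filter, Finset.mem_univ,
          true_and]
        refine ⟨g, by omega, ?_⟩
        intro j hj
        rw [Finset.mem_sdiff, not_and_or, not_not] at hj
        rcases hj with hj | hj
        · rcases Nat.lt_or_ge g d with hlt | hge
          · rcases hag (g + 1) (by omega) (by omega) with h | h
            · exact absurd h (Nat.findGreatest_is_greatest (P := fun i => ∀ j ∈ P i, x.1 j = x₀.1 j)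
                (show g < g + 1 by omega) (by omega))
            · exact h j hj
          · have : g = d := by omega
            rw [this, hP1] at hj
            exact absurd (Finset.mem_univ j) hj
        · exact hg j hj
      calc (Finset.univ.filter fun x : {x : Fin m → Fin k // val x ∈ A} => L x = ℓ).card
          = ((Finset.univ.filter fun x : {x : Fin m → Fin k // val x ∈ A} => L x = ℓ).image
              Subtype.val).card := (Finset.card_image_of_injective _ Subtype.val_injective).symm
        _ ≤ ((Finset.range (d + 1)).biUnion fun i =>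
            Finset.univ.filter fun y : Fin m → Fin k => ∀ j ∉ P (i + 1) \ P i, y j = x₀.1 j).card := by
            refine Finset.card_le_card ?_
            intro y hy
            obtain ⟨x, hx, rfl⟩ := Finset.mem_image.1 hy
            exact key x hx
        _ ≤ ∑ i ∈ Finset.range (d + 1), (Finset.univ.filter fun y : Fin m → Fin k =>
              ∀ j ∉ P (i + 1) \ P i, y j = x₀.1 j).card := Finset.card_biUnion_le
        _ ≤ ∑ i ∈ Finset.range (d + 1), k ^ b := by
            refine Finset.sum_le_sum fun i hi => ?_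
            exact (card_agree x₀.1 _).trans
              (Nat.pow_le_pow_right hk (hPb i (by have := Finset.mem_range.1 hi; omega)))
        _ = (d + 1) * k ^ b := by simp
  have hcard : {x : Fin m → Fin k | val x ∈ A}.ncard =
      (Finset.univ : Finset {x : Fin m → Fin k // val x ∈ A}).card := by
    rw [← Nat.card_coe_set_eq, Nat.card_eq_fintype_card]
    rfl
  rw [hcard]
  calc (Finset.univ : Finset {x : Fin m → Fin k // val x ∈ A}).card
      = ∑ ℓ : Fin d → Fin r,
        (Finset.univ.filter fun x : {x : Fin m → Fin k // val x ∈ A} => L x = ℓ).card :=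
        Finset.card_eq_sum_card_fiberwise (fun _ _ => Finset.mem_coe.2 (Finset.mem_univ _))
    _ ≤ ∑ ℓ : Fin d → Fin r, (d + 1) * k ^ b := Finset.sum_le_sum fun ℓ _ => hfib ℓ
    _ = (d + 1) * r ^ d * k ^ b := by
        simp [Finset.card_univ]
        ring

end Pool.Agent.W_a18a27_h10
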