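import Pool.Agent.W_a18a27_h10.Bound3

set_option autoImplicit false

/-!
`B₃` sequences which are recognized quickly by one-tape machines.
-/

namespace Pool.Agent.W_a18a27_h10

/-- The cube of the bound. -/
theorem cube_le {t r d b k w D : ℕ} (hr : 1 ≤ r) (ht : t ^ 3 ≤ 4 * r) (hd : d + 2 ≤ D) :
    (w * (t * k ^ b * (d * r + 2))) ^ 3 ≤ 4 * w ^ 3 * (D ^ 3 * (r ^ 4 * k ^ (3 * b))) := by
  have h1 : d * r + 2 ≤ D * r := by
    calc d * r + 2 ≤ d * r + 2 * r := by omega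
      _ = (d + 2) * r := by ring
      _ ≤ D * r := Nat.mul_le_mul_right _ hd
  calc (w * (t * k ^ b * (d * r + 2))) ^ 3
      = w ^ 3 * (k ^ b) ^ 3 * (t ^ 3 * (d * r + 2) ^ 3) := by ring
    _ ≤ w ^ 3 * (k ^ b) ^ 3 * ((4 * r) * (D * r) ^ 3) :=
        Nat.mul_le_mul_left _ (Nat.mul_le_mul ht (Nat.pow_le_pow_left h1 3))
    _ = 4 * w ^ 3 * (D ^ 3 * (r ^ 4 * (k ^ b) ^ 3)) := by ring
    _ = 4 * w ^ 3 * (D ^ 3 * (r ^ 4 * k ^ (3 * b))) := by rw [← pow_mul, mul_comm b 3]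

/-- The arithmetic of the choice `d = 11`, `w = m / 12 + 1`. -/
theorem arith3 {k : ℕ} (hk : 2 ≤ k) (M : ℕ) : ∃ m₀ : ℕ, ∀ m ≥ m₀, ∀ T q : ℕ,
    (T * q + 1) ^ (100 * T) ≤ k ^ (m ^ 2) →
    M * (4 * (m / 12 + 1) ^ 3 * (13 ^ 3 * (((m / 12 + 1) * (T * q + 1) ^ (T / (m / 12 + 1))) ^ 4 *
      k ^ (3 * (2 * (m / 12 + 1)))))) ≤ k ^ m := by
  have hkr : (2 : ℝ) ≤ k := by exact_mod_cast hk
  set l := Real.log k with hl
  have hl0 : 0 < l := Real.log_pos (by linarith)
  -- the logarithm is small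
  have h1 : ∀ᶠ m : ℕ in Filter.atTop, ‖Real.log (m : ℝ)‖ ≤ (l / 2000) * ‖(m : ℝ)‖ :=
    tendsto_natCast_atTop_atTop.eventually
      (Real.isLittleO_log_id_atTop.bound (show (0 : ℝ) < l / 2000 by positivity))
  have h2 : ∀ᶠ m : ℕ in Filter.atTop,
      (Real.log (M + 1) + Real.log 8788 + 6 * l) * (100 / l) ≤ (m : ℝ) :=
    tendsto_natCast_atTop_atTop.eventually (Filter.eventually_ge_atTop _)
  obtain ⟨m₁, hm₁⟩ := Filter.eventually_atTop.1 (h1.and h2)
  refine ⟨max m₁ 12, fun m hm T q hT => ?_⟩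
  obtain ⟨a1, a2⟩ := hm₁ m (le_trans (le_max_left _ _) hm)
  have hm12 : 12 ≤ m := le_trans (le_max_right _ _) hm
  have hmr : (12 : ℝ) ≤ m := by exact_mod_cast hm12
  set w := m / 12 + 1 with hw
  have hw1 : 1 ≤ w := by omega
  have hwm : w ≤ m := by omega
  have hw12 : m ≤ 12 * w := by omega
  have hw12' : 12 * w ≤ m + 12 := by omega
  set B := T * q + 1 with hB
  have hB1 : 1 ≤ B := by omega
  have hBr : (1 : ℝ) ≤ B := by exact_mod_cast hB1
  have hlB : 0 ≤ Real.log B := Real.log_nonneg hBr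
  -- take logarithms
  have hwr : (1 : ℝ) ≤ w := by exact_mod_cast hw1
  have hwmr : (w : ℝ) ≤ m := by exact_mod_cast hwm
  have hw12r : (m : ℝ) ≤ 12 * w := by exact_mod_cast hw12
  have hw12r' : 12 * (w : ℝ) ≤ m + 12 := by exact_mod_cast hw12'
  have e1 : 100 * (T : ℝ) * Real.log B ≤ (m : ℝ) ^ 2 * l := by
    have e : ((B : ℝ)) ^ (100 * T) ≤ (k : ℝ) ^ (m ^ 2) := by exact_mod_cast hT
    have := Real.log_le_log (by positivity) e
    rw [Real.log_pow, Real.log_pow] at this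
    push_cast at this
    exact this
  -- the exponent `T / w`
  have e2 : ((T / w : ℕ) : ℝ) * m ≤ 12 * T := by
    have : (T / w) * m ≤ 12 * T := by
      calc (T / w) * m ≤ (T / w) * (12 * w) := Nat.mul_le_mul_left _ hw12
        _ = 12 * (T / w * w) := by ring
        _ ≤ 12 * T := Nat.mul_le_mul_left _ (Nat.div_mul_le_self T w)
    exact_mod_cast this
  have e3 : 100 * (((T / w : ℕ) : ℝ) * Real.log B) ≤ 12 * m * l := by
    have hm0 : (0 : ℝ) < m := by linarith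
    have e4 : 100 * (((T / w : ℕ) : ℝ) * Real.log B) * m ≤ 12 * m * l * m := by
      calc 100 * (((T / w : ℕ) : ℝ) * Real.log B) * m
          = 100 * ((((T / w : ℕ) : ℝ) * m) * Real.log B) := by ring
        _ ≤ 100 * ((12 * T) * Real.log B) := by
            have := mul_le_mul_of_nonneg_right e2 hlB
            linarith
        _ = 12 * (100 * (T : ℝ) * Real.log B) := by ring
        _ ≤ 12 * ((m : ℝ) ^ 2 * l) := by linarith
        _ = 12 * m * l * m := by ring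
    exact le_of_mul_le_mul_right e4 hm0
  have e5 : Real.log w ≤ (l / 2000) * m := by
    have : Real.log w ≤ Real.log m := Real.log_le_log (by linarith) hwmr
    have h3 : Real.log (m : ℝ) ≤ ‖Real.log (m : ℝ)‖ := Real.le_norm_self _
    have h4 : ‖(m : ℝ)‖ = m := by rw [Real.norm_of_nonneg]; linarith
    rw [h4] at a1
    linarith
  have e6 : Real.log (M + 1) + Real.log 8788 + 6 * l ≤ (l / 100) * m := by
    have := mul_le_mul_of_nonneg_right a2 (show 0 ≤ l / 100 by positivity)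
    calc Real.log (M + 1) + Real.log 8788 + 6 * l
        = (Real.log (M + 1) + Real.log 8788 + 6 * l) * (100 / l) * (l / 100) := by
          field_simp
      _ ≤ m * (l / 100) := this
      _ = (l / 100) * m := by ring
  -- the inequality for the logarithms
  have hfin : ((M : ℝ) + 1) * 8788 * (w : ℝ) ^ 7 * ((B : ℝ) ^ (T / w)) ^ 4 * (k : ℝ) ^ (6 * w)
      ≤ (k : ℝ) ^ m := by
    have hk0 : (0 : ℝ) < k := by linarith
    have hw0 : (0 : ℝ) < w := by linarith
    have hB0 : (0 : ℝ) < (B : ℝ) := by linarith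
    have hpos : (0 : ℝ) < ((M : ℝ) + 1) * 8788 * (w : ℝ) ^ 7 * ((B : ℝ) ^ (T / w)) ^ 4 *
        (k : ℝ) ^ (6 * w) := by positivity
    rw [← Real.log_le_log_iff hpos (by positivity)]
    have e7 : Real.log (((M : ℝ) + 1) * 8788 * (w : ℝ) ^ 7 * ((B : ℝ) ^ (T / w)) ^ 4 *
        (k : ℝ) ^ (6 * w)) = Real.log (M + 1) + Real.log 8788 + 7 * Real.log w +
        4 * (((T / w : ℕ) : ℝ) * Real.log B) + 6 * w * l := by
      rw [Real.log_mul (by positivity) (by positivity),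
        Real.log_mul (by positivity) (by positivity),
        Real.log_mul (by positivity) (by positivity),
        Real.log_mul (by positivity) (by positivity), Real.log_pow, Real.log_pow, Real.log_pow,
        Real.log_pow]
      push_cast
      ring
    rw [e7, Real.log_pow]
    have e9 : 6 * (w : ℝ) * l ≤ (1 / 2 * m + 6) * l :=
      mul_le_mul_of_nonneg_right (by linarith) hl0.le
    have hml : 0 ≤ l * m := by positivity
    have g1 : 7 * Real.log w ≤ 7 / 2000 * (l * m) := by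
      have := mul_le_mul_of_nonneg_left e5 (show (0 : ℝ) ≤ 7 by norm_num)
      linarith
    have g2 : 4 * (((T / w : ℕ) : ℝ) * Real.log B) ≤ 48 / 100 * (l * m) := by
      linarith
    have g3 : Real.log (M + 1) + Real.log 8788 + 6 * l ≤ 1 / 100 * (l * m) := by linarith
    have g4 : 6 * (w : ℝ) * l ≤ 1 / 2 * (l * m) + 6 * l := by linarith
    have g5 : (m : ℝ) * l = l * m := by ring
    rw [← hl, g5]
    linarith
  have hfin' : (M + 1) * 8788 * w ^ 7 * (B ^ (T / w)) ^ 4 * k ^ (6 * w) ≤ k ^ m := by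
    exact_mod_cast hfin
  refine le_trans ?_ hfin'
  have e10 : M * (4 * w ^ 3 * (13 ^ 3 * ((w * B ^ (T / w)) ^ 4 * k ^ (3 * (2 * w))))) =
      M * 8788 * w ^ 7 * (B ^ (T / w)) ^ 4 * k ^ (6 * w) := by
    rw [show 3 * (2 * w) = 6 * w by ring]
    ring
  rw [e10]
  gcongr
  omega

/-- Q1 for the `B₃` sequences almost all members of which are recognized quickly by one-tape
machines. -/
theorem machine_limsup3 {a : ℕ → ℤ} (ha : StrictMono a)
    (hB : ∀ i j l i' j' l' : ℕ, i ≤ j → j ≤ l → i' ≤ j' → j' ≤ l' →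
        a i + a j + a l = a i' + a j' + a l' → i = i' ∧ j = j' ∧ l = l')
    {k : ℕ} (hk : 2 ≤ k)
    (h : ∀ N : ℕ, ∃ m ≥ N, ∃ A' : Set ℤ, AlmostAll (Set.range a) A' k m N ∧
      ∃ (Q Γ : Type) (_ : Fintype Q) (M : Machine k m Q Γ) (T : ℕ),
        M.Recognizes T A' ∧ (T * Fintype.card Q + 1) ^ (100 * T) ≤ k ^ (m ^ 2)) :
    ∀ C : ℝ, ∀ N : ℕ, ∃ n : ℕ, N ≤ n ∧ C * ((n : ℝ) + 1) ^ 3 < (a n : ℝ) := by
  refine limsup_of_approx ha fun N => ?_
  obtain ⟨m₀, hm₀⟩ := arith3 hk N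
  obtain ⟨m, hm, A', ⟨hA1, hA2⟩, Q, Γ, _, M, T, hM, hT⟩ := h (max m₀ N)
  have hr : 1 ≤ (m / 12 + 1) * (T * Fintype.card Q + 1) ^ (T / (m / 12 + 1)) :=
    Nat.mul_pos (by omega) (Nat.pow_pos (by omega))
  obtain ⟨t, ht1, ht2, ht3⟩ := exists_t hr
  refine ⟨k, m, _, A', ?_, ⟨hA1, ?_⟩, machine_bound3 (by omega) hM
    (w := m / 12 + 1) (d := 11) (by omega) (by omega)
    (Or.inr ⟨(isB3Z_range hB).mono hA1, ht2⟩), ?_⟩
  · exact Nat.mul_pos (by omega) (Nat.mul_pos (Nat.mul_pos ht1 (Nat.pow_pos (by omega))) (by omega))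
  · exact le_trans (Nat.mul_le_mul_right _ (le_max_right _ _)) hA2
  · refine le_trans (Nat.mul_le_mul_left _ (cube_le hr ht3 (D := 13) (by norm_num))) ?_
    exact hm₀ m (le_trans (le_max_left _ _) hm) T (Fintype.card Q) hT

end Pool.Agent.W_a18a27_h10
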