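import Pool.Agent.W_a18a27_h10.Seq

set_option autoImplicit false

/-!
`B₃` sequences which are recognized by finite automata with few states.
-/

namespace Pool.Agent.W_a18a27_h10

variable {k m : ℕ}

/-- The word read by a one-way automaton: the digit number `lay c` is read at time `c`. -/
def word (lay : Equiv.Perm (Fin m)) (x : Fin m → Fin k) : List (Fin k) :=
  List.ofFn fun c => x (lay c)

/-- The positions of the digits read before time `p`. -/
def before (lay : Equiv.Perm (Fin m)) (p : ℕ) : Finset (Fin m) :=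
  Finset.univ.filter fun j => (lay.symm j : ℕ) < p

theorem take_word (lay : Equiv.Perm (Fin m)) (x y : Fin m → Fin k) (p : ℕ) :
    (word lay ((before lay p).piecewise x y)).take p = (word lay x).take p := by
  apply List.ext_getElem
  · simp [word]
  · intro i h1 h2
    simp only [word, List.length_take, List.length_ofFn] at h1 h2
    simp only [word, List.getElem_take, List.getElem_ofFn]
    rw [Finset.piecewise_eq_of_mem]
    simp only [before, Finset.mem_filter, Finset.mem_univ, true_and, Equiv.symm_apply_apply]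
    omega

theorem drop_word (lay : Equiv.Perm (Fin m)) (x y : Fin m → Fin k) (p : ℕ) :
    (word lay ((before lay p).piecewise x y)).drop p = (word lay y).drop p := by
  apply List.ext_getElem
  · simp [word]
  · intro i h1 h2
    simp only [word, List.length_drop, List.length_ofFn] at h1 h2
    simp only [word, List.getElem_drop, List.getElem_ofFn]
    rw [Finset.piecewise_eq_of_notMem]
    simp only [before, Finset.mem_filter, Finset.mem_univ, true_and, Equiv.symm_apply_apply]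
    omega

theorem nfa_cover {σ : Type} [Fintype σ] (N : NFA (Fin k) σ) (lay : Equiv.Perm (Fin m))
    {A : Set ℤ} (hN : ∀ x : Fin m → Fin k, word lay x ∈ N.accepts ↔ val x ∈ A) (p : ℕ) :
    RectCover {before lay p} (Fintype.card σ) {x : Fin m → Fin k | val x ∈ A} := by
  classical
  let G : σ → Set (Fin m → Fin k) := fun q => {x | q ∈ N.evalFrom N.start ((word lay x).take p) ∧
    ∃ s ∈ N.accept, s ∈ N.evalFrom {q} ((word lay x).drop p)}
  let eqv := Fintype.equivFin σ
  refine ⟨fun i => G (eqv.symm i), fun i => ⟨_, rfl, ?_⟩, ?_⟩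
  · rintro x ⟨hx1, hx2⟩ y ⟨hy1, hy2⟩
    refine ⟨?_, ?_⟩
    · rw [take_word]; exact hx1
    · rw [drop_word]; exact hy2
  · ext x
    simp only [Set.mem_iUnion]
    have h1 : val x ∈ A ↔ ∃ q, x ∈ G q := by
      rw [← hN x, NFA.mem_accepts]
      conv_lhs => rw [← List.take_append_drop p (word lay x)]
      constructor
      · rintro ⟨s, hs, h⟩
        rw [NFA.evalFrom_append, NFA.mem_evalFrom_iff_exists] at h
        obtain ⟨q, hq, h⟩ := h
        exact ⟨q, hq, s, hs, h⟩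
      · rintro ⟨q, hq, s, hs, h⟩
        refine ⟨s, hs, ?_⟩
        rw [NFA.evalFrom_append, NFA.mem_evalFrom_iff_exists]
        exact ⟨q, hq, h⟩
    constructor
    · intro hx
      obtain ⟨q, hq⟩ := h1.1 hx
      exact ⟨eqv q, by rw [Equiv.symm_apply_apply]; exact hq⟩
    · rintro ⟨i, hi⟩
      exact h1.2 ⟨_, hi⟩

theorem card_before_sdiff (lay : Equiv.Perm (Fin m)) (p b : ℕ) :
    (before lay (p + b) \ before lay p).card ≤ b := by
  classical
  have h1 : (Finset.Ico p (p + b)).card = b := by simp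
  refine le_trans ?_ (le_of_eq h1)
  refine Finset.card_le_card_of_injOn (fun j => (lay.symm j : ℕ)) ?_ ?_
  · intro j hj
    have := Finset.mem_sdiff.1 (Finset.mem_coe.1 hj)
    unfold before at this
    simp only [Finset.mem_filter, Finset.mem_univ, true_and, not_lt] at this
    exact Finset.mem_coe.2 (Finset.mem_Ico.2 ⟨this.2, this.1⟩)
  · intro j _ j' _ hjj
    exact lay.symm.injective (Fin.ext hjj)

/-- The number of members of a Sidon set recognized by an automaton. -/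
theorem nfa_bound {σ : Type} [Fintype σ] {N : NFA (Fin k) σ} {lay : Equiv.Perm (Fin m)}
    {A : Set ℤ} (hA : IsSidon A) (hk : 1 ≤ k)
    (hN : ∀ x : Fin m → Fin k, word lay x ∈ N.accepts ↔ val x ∈ A) {w d : ℕ}
    (hmd : m ≤ (d + 1) * w) :
    {x : Fin m → Fin k | val x ∈ A}.ncard ≤ (d + 1) * Fintype.card σ ^ d * k ^ w := by
  classical
  refine card_le hA hk (d := d) (b := w) (fun i => {before lay (i * w)}) ?_ ?_ ?_ ?_
  · simp [before]
  · have : before lay ((d + 1) * w) = Finset.univ := by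
      unfold before
      rw [Finset.filter_eq_self]
      intro j _
      have := (lay.symm j).2
      omega
    rw [this]
  · intro i _ P hP P' hP'
    rw [Set.mem_singleton_iff.1 hP, Set.mem_singleton_iff.1 hP',
      show (i + 1) * w = i * w + w by ring]
    exact card_before_sdiff lay _ _
  · intro i _ _
    exact nfa_cover N lay hN _

/-- The arithmetic of the choice `d = 4`, `w = m / 5 + 1`. -/
theorem nfa_arith {k : ℕ} (hk : 2 ≤ k) (M : ℕ) : ∃ m₀ : ℕ, ∀ m ≥ m₀, ∀ r : ℕ, r ^ 31 ≤ k ^ m →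
    M * ((4 + 1) * (r + 1) ^ 4 * k ^ (m / 5 + 1)) ^ 3 ≤ k ^ m := by
  -- `2 ^ 12 * M * 125 * k ^ 3 ≤ k ^ (m / 500)` for large `m`
  obtain ⟨c, hc⟩ : ∃ c : ℕ, 2 ^ 12 * M * 125 * k ^ 3 ≤ k ^ c := by
    refine ⟨2 ^ 12 * M * 125 * k ^ 3, ?_⟩
    exact (Nat.lt_pow_self (by omega)).le
  refine ⟨155 * (c + 1), fun m hm r hr => ?_⟩
  have e0 : ∀ R : ℕ, M * ((4 + 1) * R ^ 4 * k ^ (m / 5 + 1)) ^ 3 =
      M * 125 * R ^ 12 * k ^ 3 * k ^ (3 * (m / 5)) := by
    intro R
    have : k ^ (3 * (m / 5)) = (k ^ (m / 5)) ^ 3 := by rw [mul_comm, pow_mul]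
    rw [this]
    ring
  rw [e0]
  rcases Nat.eq_zero_or_pos r with h0 | h0
  · subst h0
    calc M * 125 * (0 + 1) ^ 12 * k ^ 3 * k ^ (3 * (m / 5))
        = (M * 125 * k ^ 3) * k ^ (3 * (m / 5)) := by norm_num
      _ ≤ (2 ^ 12 * M * 125 * k ^ 3) * k ^ (3 * (m / 5)) := by
          refine Nat.mul_le_mul_right _ ?_
          nlinarith [Nat.zero_le (M * 125 * k ^ 3)]
      _ ≤ k ^ c * k ^ (3 * (m / 5)) := Nat.mul_le_mul_right _ hc
      _ = k ^ (c + 3 * (m / 5)) := by rw [pow_add]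
      _ ≤ k ^ m := Nat.pow_le_pow_right (by omega) (by omega)
  · have h2 : (r + 1) ^ 12 ≤ 2 ^ 12 * r ^ 12 := by
      rw [← mul_pow]
      exact Nat.pow_le_pow_left (by omega) 12
    -- compare the 31st powers
    have key : (k ^ c * r ^ 12 * k ^ (3 * (m / 5))) ^ 31 ≤ (k ^ m) ^ 31 := by
      calc (k ^ c * r ^ 12 * k ^ (3 * (m / 5))) ^ 31
          = (k ^ c) ^ 31 * (r ^ 31) ^ 12 * (k ^ (3 * (m / 5))) ^ 31 := by
            rw [mul_pow, mul_pow, ← pow_mul r, ← pow_mul r]
        _ ≤ (k ^ c) ^ 31 * (k ^ m) ^ 12 * (k ^ (3 * (m / 5))) ^ 31 :=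
            Nat.mul_le_mul_right _ (Nat.mul_le_mul_left _ (Nat.pow_le_pow_left hr 12))
        _ = k ^ (c * 31 + m * 12 + 3 * (m / 5) * 31) := by
            rw [← pow_mul, ← pow_mul, ← pow_mul, ← pow_add, ← pow_add]
        _ ≤ k ^ (m * 31) := Nat.pow_le_pow_right (by omega) (by omega)
        _ = (k ^ m) ^ 31 := by rw [← pow_mul]
    calc M * 125 * (r + 1) ^ 12 * k ^ 3 * k ^ (3 * (m / 5))
        = (M * 125 * k ^ 3 * k ^ (3 * (m / 5))) * (r + 1) ^ 12 := by
          generalize (r + 1) ^ 12 = R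
          ring
      _ ≤ (M * 125 * k ^ 3 * k ^ (3 * (m / 5))) * (2 ^ 12 * r ^ 12) := Nat.mul_le_mul_left _ h2
      _ = (2 ^ 12 * M * 125 * k ^ 3) * (r ^ 12 * k ^ (3 * (m / 5))) := by ring
      _ ≤ k ^ c * (r ^ 12 * k ^ (3 * (m / 5))) := Nat.mul_le_mul_right _ hc
      _ = k ^ c * r ^ 12 * k ^ (3 * (m / 5)) := by ring
      _ ≤ k ^ m := (Nat.pow_le_pow_iff_left (by norm_num)).1 key

/-- Q1 for the `B₃` sequences almost all members of which are recognized by small automata. -/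
theorem nfa_limsup {a : ℕ → ℤ} (ha : StrictMono a)
    (hB : ∀ i j l i' j' l' : ℕ, i ≤ j → j ≤ l → i' ≤ j' → j' ≤ l' →
        a i + a j + a l = a i' + a j' + a l' → i = i' ∧ j = j' ∧ l = l')
    {k : ℕ} (hk : 2 ≤ k)
    (h : ∀ N : ℕ, ∃ m ≥ N, ∃ A' : Set ℤ, AlmostAll (Set.range a) A' k m N ∧
      ∃ (σ : Type) (_ : Fintype σ) (D : NFA (Fin k) σ) (lay : Equiv.Perm (Fin m)),
        (∀ x : Fin m → Fin k, word lay x ∈ D.accepts ↔ val x ∈ A') ∧
          Fintype.card σ ^ 31 ≤ k ^ m) :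
    ∀ C : ℝ, ∀ N : ℕ, ∃ n : ℕ, N ≤ n ∧ C * ((n : ℝ) + 1) ^ 3 < (a n : ℝ) := by
  refine limsup_of_approx ha fun N => ?_
  obtain ⟨m₀, hm₀⟩ := nfa_arith hk N
  obtain ⟨m, hm, A', ⟨hA1, hA2⟩, σ, _, D, lay, hD, hσ⟩ := h (max m₀ N)
  refine ⟨k, m, _, A', ?_, ⟨hA1, ?_⟩, ?_,
    hm₀ m (le_trans (le_max_left _ _) hm) (Fintype.card σ) hσ⟩
  · exact Nat.mul_pos (Nat.mul_pos (by omega) (Nat.pow_pos (by omega))) (Nat.pow_pos (by omega))
  · exact le_trans (Nat.mul_le_mul_right _ (le_max_right _ _)) hA2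
  · refine (nfa_bound ((isSidon_of_B3 hB).mono hA1) (by omega) hD (w := m / 5 + 1) (d := 4)
      (by omega)).trans ?_
    gcongr
    omega

end Pool.Agent.W_a18a27_h10
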