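import Pool.Agent.W_a18a27_h10.Nfa
import Pool.Agent.W_a18a27_h10.Lim3

set_option autoImplicit false

/-!
`B₃` sequences which are recognized by finite automata with few states.
-/

namespace Pool.Agent.W_a18a27_h10

variable {k m : ℕ}

/-- The number of members of a Sidon or `B₃` set recognized by an automaton with `s` states. -/
theorem nfa_bound3 {σ : Type} [Fintype σ] {D : NFA (Fin k) σ} {d : ℕ}
    {lay : Equiv.Perm (Fin (d + 1))} {A : Set ℤ} (hk : 1 ≤ k)
    (hD : ∀ x : Fin (d + 1) → Fin k, word lay x ∈ D.accepts ↔ val x ∈ A) {t : ℕ}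
    (hA : (IsSidon A ∧ Fintype.card σ < (t + 1) * t) ∨
      (IsB3Z A ∧ Fintype.card σ < (t + 1) * t * t)) :
    {x : Fin (d + 1) → Fin k | val x ∈ A}.ncard ≤
      1 * (t * k ^ 1 * (d * Fintype.card σ + 2)) := by
  classical
  refine (card_le_gen hk (d := d) (b := 1) (κ := 1) (t := t) (r := Fintype.card σ)
    (fun i => {before lay i}) ?_ ?_ ?_ ?_ ?_ hA).trans (le_of_eq (by ring))
  · simp [before]
  · have : before lay (d + 1) = Finset.univ := by
      unfold before
      rw [Finset.filter_eq_self]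
      intro j _
      exact (lay.symm j).2
    rw [this]
  · intro i _
    rw [Set.ncard_singleton]
  · intro i _ P hP P' hP'
    rw [Set.mem_singleton_iff.1 hP, Set.mem_singleton_iff.1 hP']
    exact card_before_sdiff lay i 1
  · intro i _ _
    exact nfa_cover D lay hD _

/-- Q1 for the `B₃` sequences almost all members of which are recognized by automata with few
states. -/
theorem nfa_limsup3 {a : ℕ → ℤ} (ha : StrictMono a)
    (hB : ∀ i j l i' j' l' : ℕ, i ≤ j → j ≤ l → i' ≤ j' → j' ≤ l' →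
        a i + a j + a l = a i' + a j' + a l' → i = i' ∧ j = j' ∧ l = l')
    {k : ℕ} (hk : 2 ≤ k)
    (h : ∀ N : ℕ, ∃ m ≥ N, ∃ A' : Set ℤ, AlmostAll (Set.range a) A' k m N ∧
      ∃ (σ : Type) (_ : Fintype σ) (D : NFA (Fin k) σ) (lay : Equiv.Perm (Fin m)),
        (∀ x : Fin m → Fin k, word lay x ∈ D.accepts ↔ val x ∈ A') ∧
          N * m ^ 3 * Fintype.card σ ^ 4 ≤ k ^ m) :
    ∀ C : ℝ, ∀ N : ℕ, ∃ n : ℕ, N ≤ n ∧ C * ((n : ℝ) + 1) ^ 3 < (a n : ℝ) := by
  refine limsup_of_approx ha fun N => ?_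
  obtain ⟨m, hm, A', ⟨hA1, hA2⟩, σ, _, D, lay, hD, hσ⟩ := h (108 * k ^ 3 * N + N + 1)
  have hk3 : 1 ≤ k ^ 3 := Nat.pow_pos (by omega)
  have hAN : AlmostAll (Set.range a) A' k m N :=
    ⟨hA1, le_trans (Nat.mul_le_mul_right _ (by omega)) hA2⟩
  obtain ⟨d, rfl⟩ : ∃ d, m = d + 1 := ⟨m - 1, by omega⟩
  rcases Nat.eq_zero_or_pos (Fintype.card σ) with h0 | h0
  · -- no states: nothing is accepted
    refine ⟨k, d + 1, 1, A', le_rfl, hAN, ?_, ?_⟩
    · have he : {x : Fin (d + 1) → Fin k | val x ∈ A'} = ∅ := by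
        ext x
        constructor
        · intro hx
          obtain ⟨s, -, -⟩ := NFA.mem_accepts.1 ((hD x).2 hx)
          exact ((Fintype.card_eq_zero_iff.1 h0).false s).elim
        · intro hx
          exact hx.elim
      rw [he, Set.ncard_empty]
      omega
    · have h1 : d + 1 < k ^ (d + 1) := Nat.lt_pow_self (by omega)
      omega
  · obtain ⟨t, ht1, ht2, ht3⟩ := exists_t h0
    refine ⟨k, d + 1, _, A', ?_, hAN, nfa_bound3 (by omega) hD
      (Or.inr ⟨(isB3Z_range hB).mono hA1, ht2⟩), ?_⟩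
    · exact Nat.mul_pos (by omega)
        (Nat.mul_pos (Nat.mul_pos ht1 (Nat.pow_pos (by omega))) (by omega))
    · have h1 := cube_le (w := 1) (k := k) (b := 1) h0 ht3 (d := d) (D := 3 * (d + 1)) (by omega)
      calc N * (1 * (t * k ^ 1 * (d * Fintype.card σ + 2))) ^ 3
          ≤ N * (4 * 1 ^ 3 * ((3 * (d + 1)) ^ 3 * (Fintype.card σ ^ 4 * k ^ (3 * 1)))) :=
            Nat.mul_le_mul_left _ h1
        _ = (108 * k ^ 3 * N) * (d + 1) ^ 3 * Fintype.card σ ^ 4 := by ring
        _ ≤ (108 * k ^ 3 * N + N + 1) * (d + 1) ^ 3 * Fintype.card σ ^ 4 := by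
            gcongr
            omega
        _ ≤ k ^ (d + 1) := hσ

end Pool.Agent.W_a18a27_h10
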