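import Pool.Agent.W_a18a27_h10.Core

set_option autoImplicit false

/-!
One-tape machines which recognize a Sidon set.
-/

namespace Pool.Agent.W_a18a27_h10

/-- A nondeterministic one-tape machine for digit strings of length `m` over `{0, …, k - 1}`, with
state set `Q` and tape alphabet `Γ`. It may depend on `m` in any way, and its transitions may depend
on the time and on the position of the head. -/
structure Machine (k m : ℕ) (Q Γ : Type) where
  /-- the digit number `lay c` is written in the cell `c`, for `0 ≤ c < m` -/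
  lay : Equiv.Perm (Fin m)
  /-- the initial content of a cell, given its number and the digit written in it, if any -/
  init : ℤ → Option (Fin k) → Γ
  /-- the initial state -/
  start : Q
  /-- `step τ g q c q' c' g'`: at time `τ`, with the head at the cell `g` with content `c`, in state
  `q`, the machine may write `c'`, go to state `q'` and move the head to the cell `g'` -/
  step : ℕ → ℤ → Q → Γ → Q → Γ → ℤ → Prop
  /-- the accepting states -/
  acc : Q → Prop

variable {k m : ℕ} {Q Γ : Type}

/-- The digit of the string `x` which is written in the cell `g`, if any. -/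
def Machine.digit (M : Machine k m Q Γ) (x : Fin m → Fin k) (g : ℤ) : Option (Fin k) :=
  if h : 0 ≤ g ∧ g < m then some (x (M.lay ⟨g.toNat, by omega⟩)) else none

/-- `s`, `h`, `t` (state, position of the head and tape at each time) is an accepting run of length
`T` on the input `x`. The head starts at the cell `0` and moves by at most one cell in each step. -/
structure Machine.IsRun (M : Machine k m Q Γ) (x : Fin m → Fin k) (T : ℕ) (s : ℕ → Q) (h : ℕ → ℤ)
    (t : ℕ → ℤ → Γ) : Prop where
  s0 : s 0 = M.start
  h0 : h 0 = 0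
  t0 : ∀ g, t 0 g = M.init g (M.digit x g)
  move : ∀ τ < T, |h (τ + 1) - h τ| ≤ 1
  step : ∀ τ < T, M.step τ (h τ) (s τ) (t τ (h τ)) (s (τ + 1)) (t (τ + 1) (h τ)) (h (τ + 1))
  frame : ∀ τ < T, ∀ g, g ≠ h τ → t (τ + 1) g = t τ g
  acc : M.acc (s T)

/-- The machine recognizes the set `A` in time `T`: among the digit strings of length `m` exactly
those of the members of `A` have an accepting run of length `T`. -/
def Machine.Recognizes (M : Machine k m Q Γ) (T : ℕ) (A : Set ℤ) : Prop :=
  ∀ x : Fin m → Fin k, (∃ s h t, M.IsRun x T s h t) ↔ val x ∈ A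

/-- The head crosses the boundary between the cells `p - 1` and `p` in the step after time `τ`. -/
def Crs (p : ℤ) (h : ℕ → ℤ) (τ : ℕ) : Prop := ¬ (h τ < p ↔ h (τ + 1) < p)

/-- The positions of the digits written to the left of the boundary. -/
def Machine.left (M : Machine k m Q Γ) (p : ℤ) : Finset (Fin m) :=
  Finset.univ.filter fun j => ((M.lay.symm j : ℕ) : ℤ) < p

theorem mix {M : Machine k m Q Γ} {x x' : Fin m → Fin k} {T : ℕ} {s s' : ℕ → Q} {h h' : ℕ → ℤ}
    {t t' : ℕ → ℤ → Γ} (r : M.IsRun x T s h t) (r' : M.IsRun x' T s' h' t') (p : ℤ)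
    (hev : ∀ τ < T, ∀ q : Q, (Crs p h τ ∧ s (τ + 1) = q) ↔ (Crs p h' τ ∧ s' (τ + 1) = q)) :
    ∃ s'' h'' t'', M.IsRun ((M.left p).piecewise x x') T s'' h'' t'' ∧
      ∀ τ < T, ∀ q : Q, (Crs p h'' τ ∧ s'' (τ + 1) = q) ↔ (Crs p h τ ∧ s (τ + 1) = q) := by
  classical
  have hcr : ∀ τ < T, (Crs p h τ ↔ Crs p h' τ) := by
    intro τ hτ
    constructor
    · intro hc
      exact ((hev τ hτ _).1 ⟨hc, rfl⟩).1
    · intro hc
      exact ((hev τ hτ _).2 ⟨hc, rfl⟩).1
  have hside : ∀ τ ≤ T, (h τ < p ↔ h' τ < p) := by
    intro τ
    induction τ with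
    | zero => intro _; rw [r.h0, r'.h0]
    | succ τ ih =>
      intro hτ
      have ih := ih (by omega)
      have h1 := hcr τ (by omega)
      unfold Crs at h1
      tauto
  have hst : ∀ τ < T, Crs p h τ → s' (τ + 1) = s (τ + 1) := by
    intro τ hτ hc
    exact ((hev τ hτ _).1 ⟨hc, rfl⟩).2
  have hhd : ∀ τ < T, Crs p h τ → h' (τ + 1) = h (τ + 1) := by
    intro τ hτ hc
    have hc' := (hcr τ hτ).1 hc
    have m1 := abs_le.1 (r.move τ hτ)
    have m2 := abs_le.1 (r'.move τ hτ)
    have e1 := hside τ (by omega)
    have e2 := hside (τ + 1) (by omega)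
    unfold Crs at hc hc'
    by_cases c1 : h τ < p
    · have c2 : ¬ h (τ + 1) < p := by tauto
      have c3 := e1.1 c1
      have c4 : ¬ h' (τ + 1) < p := fun c => c2 (e2.2 c)
      omega
    · have c2 : h (τ + 1) < p := by tauto
      have c3 : ¬ h' τ < p := fun c => c1 (e1.2 c)
      have c4 := e2.1 c2
      omega
  refine ⟨fun τ => if h τ < p then s τ else s' τ, fun τ => if h τ < p then h τ else h' τ,
    fun τ g => if g < p then t τ g else t' τ g, ?_, ?_⟩
  · have hL : ∀ τ < T, h τ < p → (if h (τ + 1) < p then s (τ + 1) else s' (τ + 1)) = s (τ + 1) ∧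
        (if h (τ + 1) < p then h (τ + 1) else h' (τ + 1)) = h (τ + 1) := by
      intro τ hτ c1
      by_cases c2 : h (τ + 1) < p
      · rw [if_pos c2, if_pos c2]; exact ⟨rfl, rfl⟩
      · have hc : Crs p h τ := fun e => c2 (e.1 c1)
        rw [if_neg c2, if_neg c2]
        exact ⟨hst τ hτ hc, hhd τ hτ hc⟩
    have hR : ∀ τ < T, ¬ h τ < p → (if h (τ + 1) < p then s (τ + 1) else s' (τ + 1)) = s' (τ + 1) ∧
        (if h (τ + 1) < p then h (τ + 1) else h' (τ + 1)) = h' (τ + 1) := by
      intro τ hτ c1
      by_cases c2 : h (τ + 1) < p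
      · have hc : Crs p h τ := fun e => c1 (e.2 c2)
        rw [if_pos c2, if_pos c2]
        exact ⟨(hst τ hτ hc).symm, (hhd τ hτ hc).symm⟩
      · rw [if_neg c2, if_neg c2]; exact ⟨rfl, rfl⟩
    refine ⟨?_, ?_, ?_, ?_, ?_, ?_, ?_⟩
    · show (if h 0 < p then s 0 else s' 0) = M.start
      rw [r.s0, r'.s0, ite_self]
    · show (if h 0 < p then h 0 else h' 0) = 0
      rw [r.h0, r'.h0, ite_self]
    · intro g
      show (if g < p then t 0 g else t' 0 g) = _
      rw [r.t0, r'.t0]
      have hd : (if g < p then M.digit x g else M.digit x' g) =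
          M.digit ((M.left p).piecewise x x') g := by
        unfold Machine.digit
        by_cases hg : 0 ≤ g ∧ g < m
        · have hmem : M.lay ⟨g.toNat, by omega⟩ ∈ M.left p ↔ g < p := by
            unfold Machine.left
            simp only [Finset.mem_filter, Finset.mem_univ, true_and, Equiv.symm_apply_apply]
            omega
          by_cases c : g < p
          · simp only [dif_pos hg, if_pos c]
            rw [Finset.piecewise_eq_of_mem _ _ _ (hmem.2 c)]
          · simp only [dif_pos hg, if_neg c]
            rw [Finset.piecewise_eq_of_notMem _ _ _ (fun e => c (hmem.1 e))]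
        · simp only [dif_neg hg, ite_self]
      rw [← hd]
      by_cases c : g < p
      · rw [if_pos c, if_pos c]
      · rw [if_neg c, if_neg c]
    · intro τ hτ
      show |(if h (τ + 1) < p then h (τ + 1) else h' (τ + 1)) - (if h τ < p then h τ else h' τ)| ≤ 1
      by_cases c : h τ < p
      · rw [(hL τ hτ c).2, if_pos c]; exact r.move τ hτ
      · rw [(hR τ hτ c).2, if_neg c]; exact r'.move τ hτ
    · intro τ hτ
      show M.step τ (if h τ < p then h τ else h' τ) (if h τ < p then s τ else s' τ)
        (if (if h τ < p then h τ else h' τ) < p then t τ (if h τ < p then h τ else h' τ)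
          else t' τ (if h τ < p then h τ else h' τ))
        (if h (τ + 1) < p then s (τ + 1) else s' (τ + 1))
        (if (if h τ < p then h τ else h' τ) < p then t (τ + 1) (if h τ < p then h τ else h' τ)
          else t' (τ + 1) (if h τ < p then h τ else h' τ))
        (if h (τ + 1) < p then h (τ + 1) else h' (τ + 1))
      by_cases c : h τ < p
      · rw [(hL τ hτ c).1, (hL τ hτ c).2]
        simp only [if_pos c]
        exact r.step τ hτ
      · have c' : ¬ h' τ < p := fun e => c ((hside τ (by omega)).2 e)
        rw [(hR τ hτ c).1, (hR τ hτ c).2]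
        simp only [if_neg c, if_neg c']
        exact r'.step τ hτ
    · intro τ hτ g hg
      change g ≠ (if h τ < p then h τ else h' τ) at hg
      show (if g < p then t (τ + 1) g else t' (τ + 1) g) = if g < p then t τ g else t' τ g
      by_cases c : h τ < p
      · rw [if_pos c] at hg
        have c' := (hside τ (by omega)).1 c
        by_cases cg : g < p
        · rw [if_pos cg, if_pos cg]; exact r.frame τ hτ g hg
        · rw [if_neg cg, if_neg cg]; exact r'.frame τ hτ g (by omega)
      · rw [if_neg c] at hg
        by_cases cg : g < p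
        · rw [if_pos cg, if_pos cg]; exact r.frame τ hτ g (by omega)
        · rw [if_neg cg, if_neg cg]; exact r'.frame τ hτ g hg
    · show M.acc (if h T < p then s T else s' T)
      by_cases c : h T < p
      · rw [if_pos c]; exact r.acc
      · rw [if_neg c]; exact r'.acc
  · intro τ hτ q
    have e1 : ∀ σ ≤ T, ((if h σ < p then h σ else h' σ) < p ↔ h σ < p) := by
      intro σ hσ
      have := hside σ hσ
      by_cases c : h σ < p
      · simp [c]
      · have c' : ¬ h' σ < p := fun e => c (this.2 e)
        simp [c, c']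
    have e2 : Crs p (fun τ => if h τ < p then h τ else h' τ) τ ↔ Crs p h τ := by
      unfold Crs
      rw [e1 τ (by omega), e1 (τ + 1) (by omega)]
    rw [e2]
    constructor
    · rintro ⟨hc, h1⟩
      refine ⟨hc, ?_⟩
      rw [← h1]
      show s (τ + 1) = if h (τ + 1) < p then s (τ + 1) else s' (τ + 1)
      rw [hst τ hτ hc, ite_self]
    · rintro ⟨hc, h1⟩
      refine ⟨hc, ?_⟩
      rw [← h1]
      show (if h (τ + 1) < p then s (τ + 1) else s' (τ + 1)) = s (τ + 1)
      rw [hst τ hτ hc, ite_self]

end Pool.Agent.W_a18a27_h10
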